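import Mathlib

set_option autoImplicit false

namespace Pool.Agent.H27Z.PH

open Set Filter Topology
open scoped NNReal

/-- clamp to the interval from -3 to 3 -/
noncomputable def cl (z : ℝ) : ℝ := max (-3) (min 3 z)

lemma cl_mem (z : ℝ) : cl z ∈ Icc (-3 : ℝ) 3 := by
  unfold cl
  constructor
  · exact le_max_left _ _
  · exact max_le (by norm_num) (min_le_left _ _)

lemma cl_eq {z : ℝ} (h1 : -3 ≤ z) (h2 : z ≤ 3) : cl z = z := by
  unfold cl
  rw [min_eq_right h2, max_eq_right h1]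

lemma cl_neg (z : ℝ) : cl (-z) = - cl z := by
  unfold cl
  rcases le_total z (-3) with h | h
  · rw [min_eq_left (by linarith), max_eq_right (by norm_num), min_eq_right (by linarith),
      max_eq_left h]; norm_num
  · rcases le_total z 3 with h' | h'
    · rw [min_eq_right (by linarith), max_eq_right (by linarith), min_eq_right h',
        max_eq_right h]
    · rw [min_eq_right (by linarith), max_eq_left (by linarith), min_eq_left h',
        max_eq_right (by norm_num)]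

lemma cl_dist (z w : ℝ) : |cl z - cl w| ≤ |z - w| := by
  unfold cl
  calc |max (-3) (min 3 z) - max (-3) (min 3 w)| ≤ |min 3 z - min 3 w| := by
        rw [max_comm (-3 : ℝ), max_comm (-3 : ℝ)]; exact abs_max_sub_max_le_abs _ _ _
    _ ≤ |z - w| := by
        have := abs_min_sub_min_le_max (3 : ℝ) z 3 w
        simpa using this

lemma cl_ge_two {z : ℝ} (h : 2 ≤ z) : 2 ≤ cl z := by
  unfold cl
  exact le_max_of_le_right (le_min (by norm_num) h)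

section family

variable {Φ : ℝ → ℝ → ℝ → ℝ} {k1 k2 : ℝ}

lemma lip_bound
    (hΦ : ContDiffOn ℝ 1 (fun w : ℝ × ℝ × ℝ => Φ w.1 w.2.1 w.2.2)
      (Icc k1 k2 ×ˢ Ioo (-1) 1 ×ˢ univ))
    {T : ℝ} (hT : T < 1) :
    ∃ K L : ℝ≥0, (∀ k ∈ Icc k1 k2, ∀ k' ∈ Icc k1 k2, ∀ c ∈ Icc (-T) T, ∀ c' ∈ Icc (-T) T,
      ∀ z z' : ℝ, |Φ k c (cl z) - Φ k' c' (cl z')| ≤ K * max |k - k'| (max |c - c'| |z - z'|)) ∧
      ∀ k ∈ Icc k1 k2, ∀ c ∈ Icc (-T) T, ∀ z : ℝ, |Φ k c (cl z)| ≤ L := by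
  have hsub : (Icc k1 k2 ×ˢ Icc (-T) T ×ˢ Icc (-3 : ℝ) 3) ⊆
      (Icc k1 k2 ×ˢ Ioo (-1) 1 ×ˢ univ) := by
    rintro ⟨k, c, z⟩ ⟨hk, hc, -⟩
    exact ⟨hk, ⟨by simp only at hc; linarith [hc.1], by simp only at hc; linarith [hc.2]⟩,
      mem_univ _⟩
  have hcomp : IsCompact (Icc k1 k2 ×ˢ Icc (-T) T ×ˢ Icc (-3 : ℝ) 3) :=
    isCompact_Icc.prod (isCompact_Icc.prod isCompact_Icc)
  have hconv : Convex ℝ (Icc k1 k2 ×ˢ Icc (-T) T ×ˢ Icc (-3 : ℝ) 3) :=
    (convex_Icc _ _).prod ((convex_Icc _ _).prod (convex_Icc _ _))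
  obtain ⟨K, hK⟩ := (hΦ.mono hsub).exists_lipschitzOnWith one_ne_zero hconv hcomp
  obtain ⟨L, hL⟩ := hcomp.exists_bound_of_continuousOn (hΦ.mono hsub).continuousOn
  refine ⟨K, ⟨max L 0, le_max_right _ _⟩, ?_, ?_⟩
  · intro k hk k' hk' c hc c' hc' z z'
    have h := hK.dist_le_mul (k, c, cl z) ⟨hk, hc, cl_mem z⟩ (k', c', cl z') ⟨hk', hc', cl_mem z'⟩
    simp only [Prod.dist_eq, Real.dist_eq] at h
    refine h.trans (mul_le_mul_of_nonneg_left ?_ K.2)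
    exact max_le_max le_rfl (max_le_max le_rfl (cl_dist z z'))
  · intro k hk c hc z
    have h := hL (k, c, cl z) ⟨hk, hc, cl_mem z⟩
    simp only [Real.norm_eq_abs] at h
    exact h.trans (le_max_left _ _)

lemma lip_z {K : ℝ≥0} {T : ℝ}
    (hK : ∀ k ∈ Icc k1 k2, ∀ k' ∈ Icc k1 k2, ∀ c ∈ Icc (-T) T, ∀ c' ∈ Icc (-T) T,
      ∀ z z' : ℝ, |Φ k c (cl z) - Φ k' c' (cl z')| ≤ K * max |k - k'| (max |c - c'| |z - z'|))
    {k : ℝ} (hk : k ∈ Icc k1 k2) {c : ℝ} (hc : c ∈ Icc (-T) T) :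
    LipschitzWith K (fun z => Φ k c (cl z)) := by
  refine LipschitzWith.of_dist_le_mul fun z z' => ?_
  have h := hK k hk k hk c hc c hc z z'
  simpa [Real.dist_eq] using h

lemma exists_local
    (hΦ : ContDiffOn ℝ 1 (fun w : ℝ × ℝ × ℝ => Φ w.1 w.2.1 w.2.2)
      (Icc k1 k2 ×ˢ Ioo (-1) 1 ×ˢ univ))
    {T : ℝ} (hT0 : 0 < T) (hT : T < 1) {k : ℝ} (hk : k ∈ Icc k1 k2) :
    ∃ f : ℝ → ℝ, f 0 = 0 ∧ ∀ c ∈ Ioo (-T) T, HasDerivAt f (Φ k c (cl (f c))) c := by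
  obtain ⟨K, L, hK, hL⟩ := lip_bound hΦ hT
  have h0 : (0 : ℝ) ∈ Icc (-T) T := ⟨by linarith, hT0.le⟩
  have hPL : IsPicardLindelof (fun c z => Φ k c (cl z)) (⟨0, h0⟩ : Icc (-T) T) (0 : ℝ)
      L 0 L K := by
    refine ⟨fun t ht => (lip_z hK hk ht).lipschitzOnWith, fun x _ => ?_, fun t ht x _ => ?_, ?_⟩
    · have : LipschitzOnWith K (fun c => Φ k c (cl x)) (Icc (-T) T) := by
        refine LipschitzOnWith.of_dist_le_mul fun c hc c' hc' => ?_
        have h := hK k hk k hk c hc c' hc' x x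
        simpa [Real.dist_eq] using h
      exact this.continuousOn
    · simpa using hL k hk t ht x
    · simp only [sub_zero, zero_sub, neg_neg, max_self, NNReal.coe_zero]
      have : (0 : ℝ) ≤ L := L.2
      nlinarith
  obtain ⟨f, hf0, hf⟩ := hPL.exists_eq_forall_mem_Icc_hasDerivWithinAt₀
  refine ⟨f, hf0, fun c hc => ?_⟩
  exact (hf c (Ioo_subset_Icc_self hc)).hasDerivAt (Icc_mem_nhds hc.1 hc.2)

lemma unique_local
    (hΦ : ContDiffOn ℝ 1 (fun w : ℝ × ℝ × ℝ => Φ w.1 w.2.1 w.2.2)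
      (Icc k1 k2 ×ˢ Ioo (-1) 1 ×ˢ univ))
    {T : ℝ} (hT0 : 0 < T) (hT : T < 1) {k : ℝ} (hk : k ∈ Icc k1 k2) {f g : ℝ → ℝ}
    (hf0 : f 0 = 0) (hf : ∀ c ∈ Ioo (-T) T, HasDerivAt f (Φ k c (cl (f c))) c)
    (hg0 : g 0 = 0) (hg : ∀ c ∈ Ioo (-T) T, HasDerivAt g (Φ k c (cl (g c))) c) :
    EqOn f g (Ioo (-T) T) := by
  obtain ⟨K, L, hK, -⟩ := lip_bound hΦ hT
  exact ODE_solution_unique_of_mem_Ioo (v := fun c z => Φ k c (cl z)) (s := fun _ => univ)
    (K := K) (t₀ := 0)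
    (fun t ht => (lip_z hK hk (Ioo_subset_Icc_self ht)).lipschitzOnWith)
    ⟨by linarith, hT0⟩ (fun t ht => ⟨hf t ht, mem_univ _⟩) (fun t ht => ⟨hg t ht, mem_univ _⟩)
    (by rw [hf0, hg0])

lemma exists_global
    (hΦ : ContDiffOn ℝ 1 (fun w : ℝ × ℝ × ℝ => Φ w.1 w.2.1 w.2.2)
      (Icc k1 k2 ×ˢ Ioo (-1) 1 ×ˢ univ))
    {k : ℝ} (hk : k ∈ Icc k1 k2) :
    ∃ f : ℝ → ℝ, f 0 = 0 ∧ ∀ c ∈ Ioo (-1 : ℝ) 1, HasDerivAt f (Φ k c (cl (f c))) c := by
  have H : ∀ T : ℝ, ∃ f : ℝ → ℝ, 0 < T → T < 1 →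
      f 0 = 0 ∧ ∀ c ∈ Ioo (-T) T, HasDerivAt f (Φ k c (cl (f c))) c := by
    intro T
    by_cases h : 0 < T ∧ T < 1
    · obtain ⟨f, hf⟩ := exists_local hΦ h.1 h.2 hk
      exact ⟨f, fun _ _ => hf⟩
    · exact ⟨fun _ => 0, fun h1 h2 => absurd ⟨h1, h2⟩ h⟩
  choose F hF using H
  have key : ∀ T T' : ℝ, 0 < T → T < 1 → 0 < T' → T' < 1 → ∀ c, |c| < T → |c| < T' →
      F T c = F T' c := by
    intro T T' h1 h2 h3 h4 c hc hc'
    have hm0 : 0 < min T T' := lt_min h1 h3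
    have hm1 : min T T' < 1 := lt_of_le_of_lt (min_le_left _ _) h2
    have hcm : c ∈ Ioo (-min T T') (min T T') := by
      have := lt_min hc hc'
      exact ⟨by linarith [neg_abs_le c], by linarith [le_abs_self c]⟩
    refine unique_local hΦ hm0 hm1 hk (hF T h1 h2).1 (fun t ht => (hF T h1 h2).2 t ?_)
      (hF T' h3 h4).1 (fun t ht => (hF T' h3 h4).2 t ?_) hcm
    · exact ⟨by linarith [ht.1, min_le_left T T'], by linarith [ht.2, min_le_left T T']⟩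
    · exact ⟨by linarith [ht.1, min_le_right T T'], by linarith [ht.2, min_le_right T T']⟩
  refine ⟨fun c => F ((|c| + 1) / 2) c, ?_, fun c hc => ?_⟩
  · exact (hF _ (by positivity) (by norm_num)).1
  · have hc1 : |c| < 1 := abs_lt.2 hc
    have hT0 : 0 < (|c| + 1) / 2 := by positivity
    have hT1 : (|c| + 1) / 2 < 1 := by linarith
    have hcT : |c| < (|c| + 1) / 2 := by linarith
    have hev : (fun c' => F ((|c'| + 1) / 2) c') =ᶠ[𝓝 c] F ((|c| + 1) / 2) := by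
      have : ∀ᶠ c' in 𝓝 c, |c'| < (|c| + 1) / 2 :=
        continuous_abs.continuousAt.eventually_lt continuousAt_const hcT
      filter_upwards [this] with c' hc'
      exact key _ _ (by positivity) (by linarith) hT0 hT1 c' (by linarith) hc'
    exact ((hF _ hT0 hT1).2 c (abs_lt.1 hcT)).congr_of_eventuallyEq hev

theorem exists_family
    (hΦ : ContDiffOn ℝ 1 (fun w : ℝ × ℝ × ℝ => Φ w.1 w.2.1 w.2.2)
      (Icc k1 k2 ×ˢ Ioo (-1) 1 ×ˢ univ))
    (hsym : ∀ k c z, Φ k (-c) (-z) = Φ k c z) :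
    ∃ Z : ℝ → ℝ → ℝ, (∀ k ∈ Icc k1 k2, Z k 0 = 0 ∧
      (∀ c ∈ Ioo (-1 : ℝ) 1, HasDerivAt (Z k) (Φ k c (cl (Z k c))) c) ∧
      ∀ c ∈ Ioo (-1 : ℝ) 1, Z k (-c) = - Z k c) ∧
      ∀ c ∈ Ico (0 : ℝ) 1, ContinuousOn (fun k => Z k c) (Icc k1 k2) := by
  have H : ∀ k : ℝ, ∃ f : ℝ → ℝ, k ∈ Icc k1 k2 →
      f 0 = 0 ∧ ∀ c ∈ Ioo (-1 : ℝ) 1, HasDerivAt f (Φ k c (cl (f c))) c := by
    intro k
    by_cases h : k ∈ Icc k1 k2
    · obtain ⟨f, hf⟩ := exists_global hΦ h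
      exact ⟨f, fun _ => hf⟩
    · exact ⟨fun _ => 0, fun h1 => absurd h1 h⟩
  choose Z hZ using H
  refine ⟨Z, fun k hk => ⟨(hZ k hk).1, (hZ k hk).2, fun c hc => ?_⟩, fun c hc => ?_⟩
  · have hc1 : |c| < 1 := abs_lt.2 hc
    have hT0 : 0 < (|c| + 1) / 2 := by positivity
    have hT1 : (|c| + 1) / 2 < 1 := by linarith
    have hcT : |c| < (|c| + 1) / 2 := by linarith
    have h := unique_local hΦ hT0 hT1 hk (f := fun t => - Z k (-t)) (g := Z k)
      (by simp [(hZ k hk).1]) (fun t ht => ?_) (hZ k hk).1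
      (fun t ht => (hZ k hk).2 t ⟨by linarith [ht.1], by linarith [ht.2]⟩) (abs_lt.1 hcT)
    · simp only at h
      linarith
    · have h1 := (hZ k hk).2 (-t) ⟨by linarith [ht.2], by linarith [ht.1]⟩
      have h2 := (h1.comp t (hasDerivAt_neg t)).fun_neg
      have h3 : Φ k t (cl (-Z k (-t))) = Φ k (-t) (cl (Z k (-t))) := by
        rw [cl_neg, ← hsym k (-t), neg_neg]
      rw [h3]
      rw [mul_neg, mul_one, neg_neg] at h2
      exact h2
  · have hT0 : 0 < (c + 1) / 2 := by linarith [hc.1]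
    have hT1 : (c + 1) / 2 < 1 := by linarith [hc.2]
    obtain ⟨K, L, hK, -⟩ := lip_bound hΦ hT1
    intro k hk
    have hb : ∀ k' ∈ Icc k1 k2, dist (Z k' c) (Z k c) ≤
        gronwallBound 0 K (K * |k' - k| + 0) (c - 0) := by
      intro k' hk'
      have hsub : ∀ t ∈ Icc (0 : ℝ) c, t ∈ Ioo (-1 : ℝ) 1 :=
        fun t ht => ⟨by linarith [ht.1], by linarith [ht.2, hc.2]⟩
      have hsub2 : ∀ t ∈ Ico (0 : ℝ) c, t ∈ Icc (-((c + 1) / 2)) ((c + 1) / 2) :=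
        fun t ht => ⟨by linarith [ht.1], by linarith [ht.2, hc.2]⟩
      refine dist_le_of_approx_trajectories_ODE_of_mem (v := fun t z => Φ k t (cl z))
        (s := fun _ => univ) (f := Z k') (g := Z k)
        (f' := fun t => Φ k' t (cl (Z k' t))) (g' := fun t => Φ k t (cl (Z k t)))
        (fun t ht => (lip_z hK hk (hsub2 t ht)).lipschitzOnWith)
        (fun t ht => ((hZ k' hk').2 t (hsub t ht)).continuousAt.continuousWithinAt)
        (fun t ht => ((hZ k' hk').2 t (hsub t (Ico_subset_Icc_self ht))).hasDerivWithinAt)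
        (fun t ht => ?_) (fun _ _ => mem_univ _)
        (fun t ht => ((hZ k hk).2 t (hsub t ht)).continuousAt.continuousWithinAt)
        (fun t ht => ((hZ k hk).2 t (hsub t (Ico_subset_Icc_self ht))).hasDerivWithinAt)
        (fun t ht => by simp) (fun _ _ => mem_univ _)
        (by rw [(hZ k' hk').1, (hZ k hk).1]; simp) c ⟨hc.1, le_rfl⟩
      have h := hK k' hk' k hk t (hsub2 t ht) t (hsub2 t ht) (Z k' t) (Z k' t)
      simpa [Real.dist_eq] using h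
    have hlim : Tendsto (fun k' => gronwallBound 0 K (K * |k' - k| + 0) (c - 0))
        (𝓝[Icc k1 k2] k) (𝓝 0) := by
      have h1 : Continuous (fun k' : ℝ => gronwallBound 0 K (K * |k' - k| + 0) (c - 0)) :=
        (gronwallBound_continuous_ε 0 K (c - 0)).comp (by fun_prop)
      have h2 := h1.tendsto k
      simp only [sub_self, abs_zero, mul_zero, add_zero, gronwallBound_ε0_δ0] at h2
      simpa using h2.mono_left nhdsWithin_le_nhds
    rw [ContinuousWithinAt, tendsto_iff_dist_tendsto_zero]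
    refine squeeze_zero' (Eventually.of_forall fun _ => dist_nonneg) ?_ hlim
    filter_upwards [self_mem_nhdsWithin] with k' hk' using hb k' hk'

end family

end Pool.Agent.H27Z.PH
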