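import Mathlib
import Pool.Agent.H27Z.PH.Ode

set_option autoImplicit false

namespace Pool.Agent.H27Z.PH

open Set Filter Topology

noncomputable def Mq (n p k : ℝ) : ℝ := ((k - 1) * (p - 1) + n - 1) * k / 2

noncomputable def Dq (k c z : ℝ) : ℝ := k ^ 2 * z ^ 2 + 4 * (1 - c ^ 2)

noncomputable def D1 (p k c z : ℝ) : ℝ := k ^ 2 * z ^ 2 + 4 * (p - 1) * (1 - c ^ 2)

noncomputable def Num (n p k c z : ℝ) : ℝ :=
  (n * c - Mq n p k * z) * Dq k c z + 2 * (1 - c ^ 2) * (2 - p) * (k ^ 2 * z - 4 * c)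

noncomputable def Yq (n p k c z : ℝ) : ℝ := Num n p k c z / (2 * (1 - c ^ 2) * D1 p k c z)

noncomputable def Phi (n p k c z : ℝ) : ℝ := 1 - z * Yq n p k c z

lemma u_pos {c : ℝ} (hc : c ∈ Ioo (-1 : ℝ) 1) : 0 < 1 - c ^ 2 := by
  nlinarith [hc.1, hc.2]

lemma D1_pos {p k c z : ℝ} (hp : 1 < p) (hc : c ∈ Ioo (-1 : ℝ) 1) : 0 < D1 p k c z := by
  unfold D1
  have := u_pos hc
  have h1 : 0 < p - 1 := by linarith
  positivity

lemma Dq_pos {k c z : ℝ} (hc : c ∈ Ioo (-1 : ℝ) 1) : 0 < Dq k c z := by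
  unfold Dq
  have := u_pos hc
  positivity

lemma Phi_sym (n p k c z : ℝ) : Phi n p k (-c) (-z) = Phi n p k c z := by
  unfold Phi Yq Num Dq D1
  simp only [even_two, Even.neg_pow]
  ring

lemma Yq_contDiffOn (n : ℝ) {p : ℝ} (hp : 1 < p) (s : Set ℝ) :
    ContDiffOn ℝ 1 (fun w : ℝ × ℝ × ℝ => Yq n p w.1 w.2.1 w.2.2)
      (s ×ˢ Ioo (-1) 1 ×ˢ univ) := by
  unfold Yq
  refine ContDiffOn.div ?_ ?_ ?_
  · unfold Num Mq Dq
    fun_prop
  · unfold D1
    fun_prop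
  · rintro ⟨k, c, z⟩ ⟨-, hc, -⟩
    have h1 := u_pos hc
    have h2 := D1_pos (k := k) (z := z) hp hc
    simp only
    positivity

lemma Phi_contDiffOn (n : ℝ) {p : ℝ} (hp : 1 < p) (s : Set ℝ) :
    ContDiffOn ℝ 1 (fun w : ℝ × ℝ × ℝ => Phi n p w.1 w.2.1 w.2.2)
      (s ×ˢ Ioo (-1) 1 ×ˢ univ) := by
  unfold Phi
  exact contDiffOn_const.sub (ContDiffOn.mul (by fun_prop) (Yq_contDiffOn n hp s))

lemma Phi_ge_one {n p k c z : ℝ} (hp : 1 < p) (hc : c ∈ Ioo (-1 : ℝ) 1) (hz : 0 ≤ z)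
    (h : Num n p k c z ≤ 0) : 1 ≤ Phi n p k c z := by
  unfold Phi Yq
  have h1 := u_pos hc
  have h2 := D1_pos (k := k) (z := z) hp hc
  have : Num n p k c z / (2 * (1 - c ^ 2) * D1 p k c z) ≤ 0 :=
    div_nonpos_of_nonpos_of_nonneg h (by positivity)
  nlinarith

lemma Phi_le_one {n p k c z : ℝ} (hp : 1 < p) (hc : c ∈ Ioo (-1 : ℝ) 1) (hz : 0 ≤ z)
    (h : 0 ≤ Num n p k c z) : Phi n p k c z ≤ 1 := by
  unfold Phi Yq
  have h1 := u_pos hc
  have h2 := D1_pos (k := k) (z := z) hp hc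
  have : 0 ≤ Num n p k c z / (2 * (1 - c ^ 2) * D1 p k c z) := by positivity
  nlinarith

lemma u_mul_Phi {n p k c z : ℝ} (hp : 1 < p) (hc : c ∈ Ioo (-1 : ℝ) 1) :
    (1 - c ^ 2) * Phi n p k c z * (2 * D1 p k c z) =
      2 * (1 - c ^ 2) * D1 p k c z - z * Num n p k c z := by
  unfold Phi Yq
  have h1 := (u_pos hc).ne'
  have h2 := (D1_pos (k := k) (z := z) hp hc).ne'
  field_simp

lemma Mq_ge {n p k : ℝ} (hn : 4 ≤ n) (hp : 1 < p) (hk : 2 ≤ k) : n - 1 ≤ Mq n p k := by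
  unfold Mq
  have : 0 ≤ (k - 1) * (p - 1) := mul_nonneg (by linarith) (by linarith)
  nlinarith

lemma Mq_le {n p k : ℝ} (hn : 4 ≤ n) (hp : 1 < p) (hp2 : p < 2) (hk : 2 ≤ k) (hk3 : k ≤ 3) :
    Mq n p k ≤ 2 * n := by
  unfold Mq
  have h1 : (k - 1) * (p - 1) ≤ 2 := by nlinarith
  have h2 : ((k - 1) * (p - 1) + n - 1) * k ≤ (n + 1) * 3 :=
    mul_le_mul (by linarith) hk3 (by linarith) (by linarith)
  linarith

lemma Num_upper {n p k c z : ℝ} (hn : 4 ≤ n) (hp : 1 < p) (hp2 : p < 2) (hk : 2 ≤ k)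
    (hc0 : 0 ≤ c) (hc1 : c < 1) (hz : 2 ≤ z) : Num n p k c z ≤ 0 := by
  have hM := Mq_ge hn hp hk
  have hu : 0 < 1 - c ^ 2 := by nlinarith
  have hu1 : 1 - c ^ 2 ≤ 1 := by nlinarith
  have h1 : 2 ≤ Mq n p k * z - n * c := by nlinarith
  have h2 : k ^ 2 * z ^ 2 ≤ Dq k c z := by unfold Dq; linarith
  have hk2 : 0 < k ^ 2 := by positivity
  have h3 : k ^ 2 * z ≤ k ^ 2 * z ^ 2 :=
    mul_le_mul_of_nonneg_left (by nlinarith) hk2.le
  have h4 : (1 - c ^ 2) * (2 - p) ≤ 1 := by nlinarith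
  have h5 : 0 ≤ (1 - c ^ 2) * (2 - p) := mul_nonneg hu.le (by linarith)
  have h6 : 0 ≤ k ^ 2 * z := by positivity
  have h7 : (1 - c ^ 2) * (2 - p) * (k ^ 2 * z - 4 * c) ≤ k ^ 2 * z := by nlinarith
  have h8 : 2 * (k ^ 2 * z) ≤ (Mq n p k * z - n * c) * Dq k c z := by nlinarith
  unfold Num
  nlinarith

lemma down_est {n p k c z a b γ : ℝ} (hp : 1 < p) (hp2 : p < 2) (hk : 2 ≤ k)
    (hc0 : 0 ≤ c) (hc1 : c < 1) (ha : 0 < a) (haz : a ≤ z) (hzb : z ≤ b) (hγ : 0 < γ)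
    (hγ' : γ ≤ n * c - Mq n p k * z) (hu : (1 - c ^ 2) * (1 + b / a ^ 2) ≤ a * γ / 4) :
    (1 - c ^ 2) * Phi n p k c z ≤ -(a * γ / 4) := by
  have hc : c ∈ Ioo (-1 : ℝ) 1 := ⟨by linarith, hc1⟩
  have hu0 := u_pos hc
  have hD1 := D1_pos (k := k) (z := z) hp hc
  have key := u_mul_Phi (n := n) (k := k) (z := z) hp hc
  have hz : 0 < z := by linarith
  have hDD : D1 p k c z ≤ Dq k c z := by unfold D1 Dq; nlinarith
  have hD4 : 4 * a ^ 2 ≤ D1 p k c z := by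
    unfold D1
    have h1 : 4 ≤ k ^ 2 := by nlinarith
    have h2 : a ^ 2 ≤ z ^ 2 := by nlinarith
    have h3 : 0 ≤ 4 * (p - 1) * (1 - c ^ 2) := by
      have : 0 < p - 1 := by linarith
      positivity
    nlinarith [sq_nonneg a]
  have h1 : γ * D1 p k c z ≤ (n * c - Mq n p k * z) * Dq k c z :=
    mul_le_mul hγ' hDD hD1.le (by linarith)
  have h2 : -(8 * (1 - c ^ 2)) ≤ 2 * (1 - c ^ 2) * (2 - p) * (k ^ 2 * z - 4 * c) := by
    have e1 : 0 ≤ k ^ 2 * z := by positivity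
    have e2 : 0 ≤ (2 - p) := by linarith
    have e3 : -4 ≤ (2 - p) * (k ^ 2 * z - 4 * c) := by nlinarith
    nlinarith
  have h3 : γ * D1 p k c z - 8 * (1 - c ^ 2) ≤ Num n p k c z := by unfold Num; linarith
  have h4 : z * (γ * D1 p k c z - 8 * (1 - c ^ 2)) ≤ z * Num n p k c z :=
    mul_le_mul_of_nonneg_left h3 hz.le
  have h5 : a * (γ * D1 p k c z) ≤ z * (γ * D1 p k c z) :=
    mul_le_mul_of_nonneg_right haz (by positivity)
  have h6 : z * (8 * (1 - c ^ 2)) ≤ b * (8 * (1 - c ^ 2)) :=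
    mul_le_mul_of_nonneg_right hzb (by positivity)
  have hb : 0 < b := by linarith
  have h7 : b * (8 * (1 - c ^ 2)) ≤ (1 - c ^ 2) * (b / a ^ 2) * (2 * D1 p k c z) := by
    have : b * (8 * (1 - c ^ 2)) = (1 - c ^ 2) * (b / a ^ 2) * (2 * (4 * a ^ 2)) := by
      field_simp
      ring
    rw [this]
    exact mul_le_mul_of_nonneg_left (by linarith) (by positivity)
  have h8 : (1 - c ^ 2) * (1 + b / a ^ 2) * (2 * D1 p k c z) ≤ a * γ / 4 * (2 * D1 p k c z) :=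
    mul_le_mul_of_nonneg_right hu (by positivity)
  have h9 : (1 - c ^ 2) * Phi n p k c z * (2 * D1 p k c z) ≤ -(a * γ / 4) * (2 * D1 p k c z) := by
    rw [key]; nlinarith
  exact le_of_mul_le_mul_right h9 (by positivity)

lemma up_est {n p k c z a γ : ℝ} (hp : 1 < p) (hp2 : p < 2)
    (hc0 : 0 ≤ c) (hc1 : c < 1) (ha : 0 < a) (haz : a ≤ z) (hγ : 0 < γ)
    (hγ' : γ ≤ Mq n p k * z - n * c) (hu : (1 - c ^ 2) ≤ a * γ / 4) :
    a * γ / 4 ≤ (1 - c ^ 2) * Phi n p k c z := by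
  have hc : c ∈ Ioo (-1 : ℝ) 1 := ⟨by linarith, hc1⟩
  have hu0 := u_pos hc
  have hD1 := D1_pos (k := k) (z := z) hp hc
  have key := u_mul_Phi (n := n) (k := k) (z := z) hp hc
  have hz : 0 < z := by linarith
  have hDD : D1 p k c z ≤ Dq k c z := by unfold D1 Dq; nlinarith
  have hD4 : k ^ 2 * z ^ 2 ≤ D1 p k c z := by
    unfold D1
    have h3 : 0 ≤ 4 * (p - 1) * (1 - c ^ 2) := by
      have : 0 < p - 1 := by linarith
      positivity
    linarith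
  have h1 : γ * D1 p k c z ≤ (Mq n p k * z - n * c) * Dq k c z :=
    mul_le_mul hγ' hDD hD1.le (by linarith)
  have h2 : 2 * (1 - c ^ 2) * (2 - p) * (k ^ 2 * z - 4 * c) ≤ 2 * (1 - c ^ 2) * (k ^ 2 * z) := by
    have e1 : 0 ≤ k ^ 2 * z := by positivity
    have e2 : 0 ≤ (2 - p) := by linarith
    have e3 : (2 - p) * (k ^ 2 * z - 4 * c) ≤ k ^ 2 * z := by nlinarith
    nlinarith
  have h3 : Num n p k c z ≤ 2 * (1 - c ^ 2) * (k ^ 2 * z) - γ * D1 p k c z := by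
    unfold Num; linarith
  have h4 : z * Num n p k c z ≤ z * (2 * (1 - c ^ 2) * (k ^ 2 * z) - γ * D1 p k c z) :=
    mul_le_mul_of_nonneg_left h3 hz.le
  have h5 : a * (γ * D1 p k c z) ≤ z * (γ * D1 p k c z) :=
    mul_le_mul_of_nonneg_right haz (by positivity)
  have h6 : 2 * (1 - c ^ 2) * (k ^ 2 * z ^ 2) ≤ 2 * (1 - c ^ 2) * D1 p k c z :=
    mul_le_mul_of_nonneg_left hD4 (by positivity)
  have h8 : 0 ≤ a * γ * D1 p k c z := by positivity
  have h9 : a * γ / 4 * (2 * D1 p k c z) ≤ (1 - c ^ 2) * Phi n p k c z * (2 * D1 p k c z) := by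
    rw [key]; nlinarith
  exact le_of_mul_le_mul_right h9 (by positivity)

lemma blow_up {f f' : ℝ → ℝ} {c1 δ B : ℝ} (hc0 : 0 ≤ c1) (hc1 : c1 < 1) (hδ : 0 < δ)
    (hf : ∀ c ∈ Ico c1 1, HasDerivAt f (f' c) c)
    (hf' : ∀ c ∈ Ico c1 1, δ ≤ (1 - c ^ 2) * f' c) (hB : ∀ c ∈ Ico c1 1, f c ≤ B) : False := by
  have hd : ∀ c ∈ Ico c1 1, HasDerivAt (fun c => f c + δ / 2 * Real.log (1 - c))
      (f' c + δ / 2 * ((-1) / (1 - c))) c := by
    intro c hc
    refine (hf c hc).add (HasDerivAt.const_mul _ ?_)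
    exact ((hasDerivAt_id c).const_sub 1).log (by simp only [id]; linarith [hc.2])
  have hmono : MonotoneOn (fun c => f c + δ / 2 * Real.log (1 - c)) (Ico c1 1) := by
    refine monotoneOn_of_deriv_nonneg (convex_Ico _ _)
      (fun c hc => (hd c hc).continuousAt.continuousWithinAt)
      (fun c hc => (hd c (interior_subset hc)).differentiableAt.differentiableWithinAt) ?_
    intro c hc
    have hc' := interior_subset hc
    rw [(hd c hc').deriv]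
    have h1 : 0 < 1 - c := by linarith [hc'.2]
    have h2 := hf' c hc'
    have h3 : 0 ≤ c := le_trans hc0 hc'.1
    have h4 : 0 < f' c := by
      by_contra h
      push Not at h
      have : 0 < 1 - c ^ 2 := by nlinarith
      nlinarith
    have h5 : δ / 2 ≤ (1 - c) * f' c := by nlinarith
    have h6 : δ / 2 * (-1 / (1 - c)) = -(δ / 2 / (1 - c)) := by ring
    rw [h6, ← sub_eq_add_neg, sub_nonneg, div_le_iff₀ h1]
    linarith
  set t := (B - f c1 + 1) * 2 / δ with ht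
  have hBf : f c1 ≤ B := hB c1 ⟨le_rfl, hc1⟩
  have ht0 : 0 ≤ t := by rw [ht]; apply div_nonneg _ hδ.le; linarith
  have hexp : Real.exp (-t) ≤ 1 := Real.exp_le_one_iff.2 (by linarith)
  have hexp0 := Real.exp_pos (-t)
  have hmem : 1 - (1 - c1) * Real.exp (-t) ∈ Ico c1 1 := by
    constructor
    · nlinarith
    · have : 0 < (1 - c1) * Real.exp (-t) := mul_pos (by linarith) hexp0
      linarith
  have h := hmono ⟨le_rfl, hc1⟩ hmem hmem.1
  simp only [sub_sub_cancel] at h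
  rw [Real.log_mul (by linarith) hexp0.ne', Real.log_exp] at h
  have h2 := hB _ hmem
  have h3 : δ / 2 * t = B - f c1 + 1 := by rw [ht]; field_simp
  nlinarith

lemma near_one {η c0 : ℝ} (hη : 0 < η) (h0 : 0 ≤ c0) (h1 : c0 < 1) :
    ∃ c1 ∈ Ico c0 1, ∀ c ∈ Ico c1 1, 1 - c ^ 2 ≤ η := by
  refine ⟨max c0 (1 - η / 2), ⟨le_max_left _ _, max_lt h1 (by linarith)⟩, fun c hc => ?_⟩
  have h2 : 1 - η / 2 ≤ c := le_trans (le_max_right _ _) hc.1
  have h3 : 0 ≤ c := le_trans h0 (le_trans (le_max_left _ _) hc.1)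
  nlinarith [hc.2]

/-- fencing on a half open interval -/
lemma fence {f f' B B' : ℝ → ℝ} {a : ℝ}
    (hf : ∀ c ∈ Ico a 1, HasDerivAt f (f' c) c) (hB : ∀ c ∈ Ico a 1, HasDerivAt B (B' c) c)
    (ha : f a ≤ B a) (h : ∀ c ∈ Ico a 1, f c = B c → f' c < B' c) :
    ∀ c ∈ Ico a 1, f c ≤ B c := by
  intro c hc
  have hs : ∀ t ∈ Icc a c, t ∈ Ico a 1 := fun t ht => ⟨ht.1, lt_of_le_of_lt ht.2 hc.2⟩
  exact image_le_of_deriv_right_lt_deriv_boundary' (f' := f') (B' := B')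
    (fun t ht => (hf t (hs t ht)).continuousAt.continuousWithinAt)
    (fun t ht => (hf t (hs t (Ico_subset_Icc_self ht))).hasDerivWithinAt) ha
    (fun t ht => (hB t (hs t ht)).continuousAt.continuousWithinAt)
    (fun t ht => (hB t (hs t (Ico_subset_Icc_self ht))).hasDerivWithinAt)
    (fun t ht => h t (hs t (Ico_subset_Icc_self ht))) ⟨hc.1, le_rfl⟩

section sol

variable {n p k : ℝ} {z : ℝ → ℝ}

lemma sol_nonneg (h0 : z 0 = 0)
    (hz : ∀ c ∈ Ioo (-1 : ℝ) 1, HasDerivAt z (Phi n p k c (cl (z c))) c) :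
    ∀ c ∈ Ico (0 : ℝ) 1, 0 ≤ z c := by
  refine fence (f := fun _ => 0) (f' := fun _ => 0) (B' := fun c => Phi n p k c (cl (z c)))
    (fun c _ => hasDerivAt_const c 0) (fun c hc => hz c ⟨by linarith [hc.1], hc.2⟩) h0.ge ?_
  intro c _ h
  rw [← h, cl_eq (by norm_num) (by norm_num)]
  simp [Phi]

lemma sol_stay_up (hn : 4 ≤ n) (hp : 1 < p) (hp2 : p < 2) (hk : 2 ≤ k)
    (hz : ∀ c ∈ Ioo (-1 : ℝ) 1, HasDerivAt z (Phi n p k c (cl (z c))) c)
    {c1 : ℝ} (hc1 : 0 ≤ c1) (h : 2 < z c1) : ∀ c ∈ Ico c1 1, 2 < z c := by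
  intro c hc
  refine lt_of_lt_of_le h ?_
  refine fence (f := fun _ => z c1) (f' := fun _ => 0) (B' := fun c => Phi n p k c (cl (z c)))
    (fun c _ => hasDerivAt_const c _) (fun c hc => hz c ⟨by linarith [hc.1], hc.2⟩) le_rfl ?_ c hc
  intro t ht h'
  have h2 : 2 ≤ cl (z t) := cl_ge_two (by linarith)
  have := Phi_ge_one (n := n) (k := k) hp (c := t) ⟨by linarith [ht.1], ht.2⟩ (z := cl (z t))
    (by linarith) (Num_upper hn hp hp2 hk (by linarith [ht.1]) ht.2 h2)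
  linarith

lemma sol_stay_down (hn : 4 ≤ n) (hp : 1 < p) (hp2 : p < 2) (hk : 2 ≤ k) (hk3 : k ≤ 3)
    (hz : ∀ c ∈ Ioo (-1 : ℝ) 1, HasDerivAt z (Phi n p k c (cl (z c))) c)
    {c1 : ℝ} (hc1 : 999 / 1000 ≤ c1) (h : z c1 ≤ 1 / 8) : ∀ c ∈ Ico c1 1, z c ≤ 1 / 8 := by
  refine fence (B := fun _ => 1 / 8) (B' := fun _ => 0) (f' := fun c => Phi n p k c (cl (z c)))
    (fun c hc => hz c ⟨by linarith [hc.1], hc.2⟩) (fun c _ => hasDerivAt_const c _) h ?_
  intro t ht h'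
  rw [h', cl_eq (by norm_num) (by norm_num)]
  have hM := Mq_le hn hp hp2 hk hk3
  have ht1 : 999 / 1000 ≤ t := le_trans hc1 ht.1
  have hu : 0 < 1 - t ^ 2 := by nlinarith [ht.2]
  have := down_est (n := n) (a := 1 / 8) (b := 1 / 8) (γ := 1) (z := 1 / 8) hp hp2 hk
    (by linarith) ht.2 (by norm_num) le_rfl le_rfl one_pos (by nlinarith) (by nlinarith [ht.2])
  by_contra hh
  push Not at hh
  nlinarith [mul_nonneg hu.le hh]

lemma sol_two_down (hn : 4 ≤ n) (hp : 1 < p) (hp2 : p < 2) (h0 : z 0 = 0)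
    (hz : ∀ c ∈ Ioo (-1 : ℝ) 1, HasDerivAt z (Phi n p 2 c (cl (z c))) c) :
    ∃ c ∈ Ico (999 / 1000 : ℝ) 1, z c < 1 / 8 := by
  by_contra hcon
  push Not at hcon
  have hn0 : 0 < n := by linarith
  set β := 1 + (2 - p) / (2 * n) with hβ
  have he : 0 < (2 - p) / (2 * n) := div_pos (by linarith) (by linarith)
  have he1 : (2 - p) / (2 * n) ≤ 1 := by rw [div_le_one (by linarith)]; linarith
  have hM : Mq n p 2 = n - (2 - p) := by unfold Mq; ring
  have hMβ : (2 - p) / 2 ≤ n - Mq n p 2 * β := by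
    rw [hM, hβ]
    have : n * ((2 - p) / (2 * n)) = (2 - p) / 2 := by field_simp
    nlinarith
  have hle : ∀ c ∈ Ico (0 : ℝ) 1, z c ≤ β * c := by
    refine fence (B' := fun _ => β) (f' := fun c => Phi n p 2 c (cl (z c)))
      (fun c hc => hz c ⟨by linarith [hc.1], hc.2⟩)
      (fun c _ => by simpa using (hasDerivAt_id c).const_mul β) (by simp [h0]) ?_
    intro t ht h'
    have hβ0 : 0 ≤ β * t := mul_nonneg (by linarith) ht.1
    have hβ2 : β * t ≤ 3 := by nlinarith [ht.1, ht.2]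
    rw [h', cl_eq (by linarith) hβ2]
    have htI : t ∈ Ioo (-1 : ℝ) 1 := ⟨by linarith [ht.1], ht.2⟩
    have hN : 0 ≤ Num n p 2 t (β * t) := by
      have e : Num n p 2 t (β * t) = t * ((n - Mq n p 2 * β) * Dq 2 t (β * t) +
          2 * (1 - t ^ 2) * (2 - p) * (4 * (β - 1))) := by unfold Num; ring
      rw [e]
      have h1 := Dq_pos (k := 2) (z := β * t) htI
      have h2 := u_pos htI
      have h3 : 0 ≤ n - Mq n p 2 * β := by linarith
      have h4 : 0 ≤ β - 1 := by linarith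
      have h5 : 0 ≤ 2 - p := by linarith
      have h6 := ht.1
      positivity
    have := Phi_le_one hp htI hβ0 hN
    linarith
  obtain ⟨c1, hc1, hc1'⟩ := near_one (η := (2 - p) / 20000) (c0 := 999 / 1000) (by linarith)
    (by norm_num) (by norm_num)
  refine blow_up (f := fun c => - z c) (f' := fun c => - Phi n p 2 c (cl (z c))) (c1 := c1)
    (δ := 1 / 8 * ((2 - p) / 4) / 4) (B := 0) (by linarith [hc1.1]) hc1.2 (by linarith)
    (fun c hc => (hz c ⟨by linarith [hc.1, hc1.1], hc.2⟩).fun_neg) (fun c hc => ?_)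
    (fun c hc => ?_)
  · have hc0 : 999 / 1000 ≤ c := le_trans hc1.1 hc.1
    have h1 := hcon c ⟨hc0, hc.2⟩
    have h2 := hle c ⟨by linarith, hc.2⟩
    have h3 : z c ≤ 2 := by nlinarith [hc.2]
    rw [cl_eq (by linarith) (by linarith)]
    have hM0 : 0 ≤ Mq n p 2 := by rw [hM]; linarith
    have h4 : Mq n p 2 * z c ≤ Mq n p 2 * (β * c) := mul_le_mul_of_nonneg_left h2 hM0
    have h5 := hc1' c hc
    have := down_est (n := n) (a := 1 / 8) (b := 2) (γ := (2 - p) / 4) (z := z c) hp hp2 le_rfl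
      (by linarith) hc.2 (by norm_num) h1 h3 (by linarith) (by nlinarith) (by nlinarith)
    linarith
  · have hc0 : 999 / 1000 ≤ c := le_trans hc1.1 hc.1
    have h1 := hcon c ⟨hc0, hc.2⟩
    linarith

lemma sol_crit_up (hn : 4 ≤ n) (hp : 1 < p) (hp2 : p < 2)
    (hcond : (2 - p) * (3 * p + 2) < (n - 1) * p - 2) (h0 : z 0 = 0)
    (hz : ∀ c ∈ Ioo (-1 : ℝ) 1, HasDerivAt z (Phi n p (1 + 2 / p) c (cl (z c))) c) :
    ∃ c ∈ Ico (0 : ℝ) 1, 2 < z c := by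
  by_contra hcon
  push Not at hcon
  have hp0 : 0 < p := by linarith
  set k := 1 + 2 / p with hk
  have he : 0 < 2 - p := by linarith
  have hA : 2 * (Mq n p k - n) = (2 - p) * ((n - 1) * p - 2) / p ^ 2 := by
    rw [hk]; unfold Mq; field_simp; ring
  have hB : k ^ 2 - 4 = (2 - p) * (3 * p + 2) / p ^ 2 := by
    rw [hk]; field_simp; ring
  have hBpos : 0 < (2 - p) * (3 * p + 2) := by positivity
  have h1 : (2 - p) * (k ^ 2 * 1 - 4) < 2 * (Mq n p k * 1 - n) := by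
    rw [mul_one, mul_one, hA, hB, ← mul_div_assoc]
    exact div_lt_div_of_pos_right (mul_lt_mul_of_pos_left hcond he) (by positivity)
  have h2 : 0 < Mq n p k * 1 - n := by
    have : 0 < (2 - p) * ((n - 1) * p - 2) / p ^ 2 :=
      div_pos (mul_pos he (by linarith)) (by positivity)
    linarith
  have hev : ∀ᶠ α in 𝓝[<] (1 : ℝ), ((2 - p) * (k ^ 2 * α - 4) < 2 * (Mq n p k * α - n) ∧
      0 < Mq n p k * α - n) ∧ 0 < α := by
    refine Eventually.filter_mono nhdsWithin_le_nhds ((Eventually.and ?_ ?_).and ?_)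
    · exact ContinuousAt.eventually_lt (by fun_prop) (by fun_prop) h1
    · exact ContinuousAt.eventually_lt (f := fun _ => (0 : ℝ))
        (g := fun α => Mq n p k * α - n) (by fun_prop) (by fun_prop) h2
    · exact eventually_gt_nhds one_pos
  obtain ⟨α, ⟨⟨hα1, hα2⟩, hα0⟩, hα⟩ := (hev.and self_mem_nhdsWithin).exists
  have hα : α < 1 := hα
  have hle : ∀ c ∈ Ico (0 : ℝ) 1, α * c ≤ z c := by
    refine fence (f' := fun _ => α) (B' := fun c => Phi n p k c (cl (z c)))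
      (fun c _ => by simpa using (hasDerivAt_id c).const_mul α)
      (fun c hc => hz c ⟨by linarith [hc.1], hc.2⟩) (by simp [h0]) ?_
    intro t ht h'
    have hβ0 : 0 ≤ α * t := mul_nonneg (by linarith) ht.1
    have hβ2 : α * t ≤ 3 := by nlinarith [ht.1, ht.2]
    rw [← h', cl_eq (by linarith) hβ2]
    have htI : t ∈ Ioo (-1 : ℝ) 1 := ⟨by linarith [ht.1], ht.2⟩
    have hN : Num n p k t (α * t) ≤ 0 := by
      have e : Num n p k t (α * t) = t * (2 * (1 - t ^ 2) * ((2 - p) * (k ^ 2 * α - 4)) -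
          (Mq n p k * α - n) * Dq k t (α * t)) := by unfold Num; ring
      rw [e]
      have h2 := u_pos htI
      have h3 : 4 * (1 - t ^ 2) ≤ Dq k t (α * t) := by
        unfold Dq; nlinarith [sq_nonneg (k * (α * t))]
      have h4 := mul_le_mul_of_nonneg_left h3 hα2.le
      have h5 := mul_le_mul_of_nonneg_left hα1.le (by positivity : 0 ≤ 2 * (1 - t ^ 2))
      exact mul_nonpos_of_nonneg_of_nonpos ht.1 (by nlinarith)
    have := Phi_ge_one hp htI hβ0 hN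
    linarith
  obtain ⟨c1, hc1, hc1'⟩ := near_one (η := α / 2 * ((Mq n p k * α - n) / 2) / 4) (c0 := 1 / 2)
    (by positivity) (by norm_num) (by norm_num)
  refine blow_up (f := z) (f' := fun c => Phi n p k c (cl (z c))) (c1 := c1)
    (δ := α / 2 * ((Mq n p k * α - n) / 2) / 4) (B := 2) (by linarith [hc1.1]) hc1.2
    (by positivity) (fun c hc => hz c ⟨by linarith [hc.1, hc1.1], hc.2⟩) (fun c hc => ?_)
    (fun c hc => hcon c ⟨by linarith [hc.1, hc1.1], hc.2⟩)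
  have hc0 : 1 / 2 ≤ c := le_trans hc1.1 hc.1
  have h1 := hcon c ⟨by linarith, hc.2⟩
  have h2 := hle c ⟨by linarith, hc.2⟩
  have h3 : α / 2 ≤ z c := by nlinarith
  rw [cl_eq (by linarith) (by linarith)]
  have hM0 : 0 ≤ Mq n p k := by nlinarith
  have h4 : Mq n p k * (α * c) ≤ Mq n p k * z c := mul_le_mul_of_nonneg_left h2 hM0
  exact up_est hp hp2 (by linarith) hc.2 (by linarith) h3 (by linarith) (by nlinarith) (hc1' c hc)

end sol

theorem shoot {n p : ℝ} (hn : 4 ≤ n) (hp : 1 < p) (hp2 : p < 2)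
    (hcond : (2 - p) * (3 * p + 2) < (n - 1) * p - 2) :
    ∃ k : ℝ, 2 ≤ k ∧ k < 1 + 2 / p ∧ ∃ z : ℝ → ℝ, z 0 = 0 ∧
      (∀ c ∈ Ioo (-1 : ℝ) 1, HasDerivAt z (Phi n p k c (z c)) c) ∧
      (∀ c ∈ Ioo (-1 : ℝ) 1, |z c| ≤ 2) ∧
      (∀ c ∈ Ico (999 / 1000 : ℝ) 1, 1 / 8 ≤ z c ∧ z (-c) ≤ -(1 / 8)) := by
  have hp0 : 0 < p := by linarith
  have hk2 : 2 ≤ 1 + 2 / p := by
    have : 1 ≤ 2 / p := by rw [le_div_iff₀ hp0]; linarith
    linarith
  have hk3 : 1 + 2 / p ≤ 3 := by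
    have : 2 / p ≤ 2 := by rw [div_le_iff₀ hp0]; linarith
    linarith
  obtain ⟨Z, hZ, hZc⟩ := exists_family (Φ := Phi n p) (k1 := 2) (k2 := 1 + 2 / p)
    (Phi_contDiffOn n hp _) (Phi_sym n p)
  have : PreconnectedSpace (Icc (2 : ℝ) (1 + 2 / p)) :=
    Subtype.preconnectedSpace isPreconnected_Icc
  have hcont : ∀ c ∈ Ico (0 : ℝ) 1,
      Continuous (fun k : Icc (2 : ℝ) (1 + 2 / p) => Z k c) :=
    fun c hc => (hZc c hc).domRestrict
  set U : Set (Icc (2 : ℝ) (1 + 2 / p)) := {k | ∃ c ∈ Ico (0 : ℝ) 1, 2 < Z k c} with hU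
  set L : Set (Icc (2 : ℝ) (1 + 2 / p)) :=
    {k | ∃ c ∈ Ico (999 / 1000 : ℝ) 1, Z k c < 1 / 8} with hL
  have hUo : IsOpen U := by
    have : U = ⋃ c ∈ Ico (0 : ℝ) 1, {k : Icc (2 : ℝ) (1 + 2 / p) | 2 < Z k c} := by
      ext k; simp [hU]
    rw [this]
    exact isOpen_biUnion fun c hc => isOpen_lt continuous_const (hcont c hc)
  have hLo : IsOpen L := by
    have : L = ⋃ c ∈ Ico (999 / 1000 : ℝ) 1, {k : Icc (2 : ℝ) (1 + 2 / p) | Z k c < 1 / 8} := by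
      ext k; simp [hL]
    rw [this]
    exact isOpen_biUnion fun c hc =>
      isOpen_lt (hcont c ⟨by linarith [hc.1], hc.2⟩) continuous_const
  have hUk : (⟨1 + 2 / p, hk2, le_rfl⟩ : Icc (2 : ℝ) (1 + 2 / p)) ∈ U :=
    sol_crit_up hn hp hp2 hcond (hZ _ ⟨hk2, le_rfl⟩).1 (hZ _ ⟨hk2, le_rfl⟩).2.1
  have hLk : (⟨2, le_rfl, hk2⟩ : Icc (2 : ℝ) (1 + 2 / p)) ∈ L :=
    sol_two_down hn hp hp2 (hZ _ ⟨le_rfl, hk2⟩).1 (hZ _ ⟨le_rfl, hk2⟩).2.1
  have hex : ∃ k : Icc (2 : ℝ) (1 + 2 / p), k ∉ U ∧ k ∉ L := by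
    by_contra hcon
    push Not at hcon
    obtain ⟨k, -, ⟨c1, hc1, h1⟩, ⟨c2, hc2, h2⟩⟩ := isPreconnected_univ U L hUo hLo
      (fun k _ => by
        by_cases h : k ∈ U
        · exact Or.inl h
        · exact Or.inr (hcon k h)) ⟨_, mem_univ _, hUk⟩ ⟨_, mem_univ _, hLk⟩
    have hk := hZ k k.2
    have h3 := sol_stay_up hn hp hp2 k.2.1 hk.2.1 hc1.1 h1 (max c1 c2)
      ⟨le_max_left _ _, max_lt hc1.2 hc2.2⟩
    have h4 := sol_stay_down hn hp hp2 k.2.1 (le_trans k.2.2 hk3) hk.2.1 hc2.1 h2.le (max c1 c2)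
      ⟨le_max_right _ _, max_lt hc1.2 hc2.2⟩
    linarith
  obtain ⟨k, hkU, hkL⟩ := hex
  obtain ⟨h0, hd, hodd⟩ := hZ k k.2
  have hlt : (k : ℝ) < 1 + 2 / p := by
    refine lt_of_le_of_ne k.2.2 fun h => hkU ?_
    have : k = ⟨1 + 2 / p, hk2, le_rfl⟩ := Subtype.ext h
    rw [this]; exact hUk
  simp only [hU, hL, mem_ofPred_eq, not_exists, not_and, not_lt] at hkU hkL
  have hnn := sol_nonneg h0 hd
  have habs : ∀ c ∈ Ioo (-1 : ℝ) 1, |Z k c| ≤ 2 := by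
    intro c hc
    rcases le_total 0 c with h | h
    · rw [abs_of_nonneg (hnn c ⟨h, hc.2⟩)]; exact hkU c ⟨h, hc.2⟩
    · have hc' : -c ∈ Ico (0 : ℝ) 1 := ⟨by linarith, by linarith [hc.1]⟩
      have h1 := hodd c hc
      have h2 := hnn _ hc'
      have h3 := hkU _ hc'
      rw [abs_le]; constructor <;> linarith
  refine ⟨k, k.2.1, hlt, Z k, h0, fun c hc => ?_, habs, fun c hc => ⟨hkL c hc, ?_⟩⟩
  · have h1 := hd c hc
    have h2 := abs_le.1 (habs c hc)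
    rwa [cl_eq (by linarith) (by linarith)] at h1
  · rw [hodd c ⟨by linarith [hc.1], hc.2⟩]
    linarith [hkL c hc]

end Pool.Agent.H27Z.PH
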