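import Mathlib

set_option autoImplicit false

namespace Pool.Agent.H27Z.PH

open Set Filter Topology MeasureTheory Metric

abbrev Eu (d : ℕ) := EuclideanSpace ℝ (Fin d)

lemma ae_coord_ne {d : ℕ} (i : Fin d) : ∀ᵐ x : Eu d, x i ≠ 0 := by
  have h : (LinearMap.ker (EuclideanSpace.proj i : Eu d →L[ℝ] ℝ).toLinearMap) ≠ ⊤ := by
    intro h
    have : EuclideanSpace.single i (1 : ℝ) ∈
        LinearMap.ker (EuclideanSpace.proj i : Eu d →L[ℝ] ℝ).toLinearMap := by
      rw [h]; trivial
    simp at this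
  have h2 := Measure.addHaar_submodule (volume : Measure (Eu d)) _ h
  rw [ae_iff]
  convert h2 using 2
  ext x
  simp

lemma int_weight {d : ℕ} {i j : Fin d} (hij : i ≠ j) (r : ℝ) :
    Integrable ((closedBall (0 : Eu d) r).indicator
      fun x => |x i| ^ (-(1 / 2) : ℝ) * |x j| ^ (-(1 / 2) : ℝ)) := by
  classical
  have hκ : IntegrableOn (fun t : ℝ => |t| ^ (-(1 / 2) : ℝ)) (ball 0 (r + 1)) := by
    refine integrableOn_ball_of_norm_le_rpow (C := 1) (α := 1 / 2) (by simp) (by simp; norm_num)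
      (Eventually.of_forall fun t => ?_) ?_
    · rw [Real.norm_eq_abs, Real.norm_eq_abs, one_mul,
        abs_of_nonneg (Real.rpow_nonneg (abs_nonneg t) _)]
    · exact (Measurable.pow_const measurable_abs _).aestronglyMeasurable
  have hone : IntegrableOn (fun _ : ℝ => (1 : ℝ)) (ball 0 (r + 1)) :=
    integrableOn_const measure_ball_lt_top.ne
  let f : Fin d → ℝ → ℝ := fun l => (ball (0 : ℝ) (r + 1)).indicator fun t =>
    (if l = i then |t| ^ (-(1 / 2) : ℝ) else 1) * (if l = j then |t| ^ (-(1 / 2) : ℝ) else 1)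
  have hf : ∀ l, Integrable (f l) := by
    intro l
    refine (integrable_indicator_iff measurableSet_ball).2 ?_
    by_cases h1 : l = i
    · have h2 : l ≠ j := h1 ▸ hij
      simpa [h1, hij] using hκ
    · by_cases h2 : l = j
      · simpa [h2, hij.symm] using hκ
      · simpa [h1, h2] using hone
  have hprod : Integrable (fun x : Fin d → ℝ => ∏ l, f l (x l)) volume :=
    Integrable.fintype_prod hf
  have hE : Integrable (fun x : Eu d => ∏ l, f l (x l)) volume :=
    (PiLp.volume_preserving_ofLp (Fin d)).integrable_comp_of_integrable hprod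
  refine hE.mono' ?_ (Eventually.of_forall fun x => ?_)
  · refine AEStronglyMeasurable.indicator ?_ measurableSet_closedBall
    refine (Measurable.mul ?_ ?_).aestronglyMeasurable
    · exact Measurable.pow_const (by fun_prop) _
    · exact Measurable.pow_const (by fun_prop) _
  · by_cases hx : x ∈ closedBall (0 : Eu d) r
    · rw [indicator_of_mem hx]
      have hl : ∀ l, x l ∈ ball (0 : ℝ) (r + 1) := by
        intro l
        rw [mem_ball_zero_iff]
        have h1 := PiLp.norm_apply_le x l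
        have h2 := mem_closedBall_zero_iff.1 hx
        linarith
      have : ∏ l, f l (x l) = |x i| ^ (-(1 / 2) : ℝ) * |x j| ^ (-(1 / 2) : ℝ) := by
        simp only [f, indicator_of_mem (hl _), Finset.prod_mul_distrib, Finset.prod_ite_eq',
          Finset.mem_univ, if_true]
      rw [this, Real.norm_eq_abs, abs_of_nonneg (by positivity)]
    · rw [indicator_of_notMem hx, norm_zero]
      refine Finset.prod_nonneg fun l _ => indicator_nonneg (fun t _ => ?_) _
      split_ifs <;> positivity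

lemma weight_ineq {a b : ℝ} (ha : a ≠ 0) (hb : b ≠ 0) :
    (|a| + |b|) / (a ^ 2 + b ^ 2) ≤ |a| ^ (-(1 / 2) : ℝ) * |b| ^ (-(1 / 2) : ℝ) := by
  have ha' : 0 < |a| := abs_pos.2 ha
  have hb' : 0 < |b| := abs_pos.2 hb
  rw [Real.rpow_neg ha'.le, Real.rpow_neg hb'.le, ← Real.sqrt_eq_rpow, ← Real.sqrt_eq_rpow,
    ← sq_abs a, ← sq_abs b]
  obtain ⟨s, hs, hs2⟩ : ∃ s : ℝ, 0 < s ∧ |a| = s ^ 2 :=
    ⟨Real.sqrt |a|, Real.sqrt_pos.2 ha', (Real.sq_sqrt ha'.le).symm⟩
  obtain ⟨t, ht, ht2⟩ : ∃ t : ℝ, 0 < t ∧ |b| = t ^ 2 :=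
    ⟨Real.sqrt |b|, Real.sqrt_pos.2 hb', (Real.sq_sqrt hb'.le).symm⟩
  rw [hs2, ht2, Real.sqrt_sq hs.le, Real.sqrt_sq ht.le, ← mul_inv, ← one_div,
    div_le_div_iff₀ (by positivity) (by positivity)]
  have : 0 ≤ (s - t) ^ 2 * (s ^ 2 + s * t + t ^ 2) := by positivity
  nlinarith

/-- the cutoff profile -/
noncomputable def chi (t : ℝ) : ℝ := Real.smoothTransition (t - 1)

lemma chi_contDiff : ContDiff ℝ 1 chi :=
  Real.smoothTransition.contDiff.comp (contDiff_id.sub contDiff_const)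

lemma chi_zero {t : ℝ} (h : t ≤ 1) : chi t = 0 :=
  Real.smoothTransition.zero_of_nonpos (by linarith)

lemma chi_one {t : ℝ} (h : 2 ≤ t) : chi t = 1 :=
  Real.smoothTransition.one_of_one_le (by linarith)

lemma chi_abs (t : ℝ) : |chi t| ≤ 1 := by
  unfold chi
  rw [abs_of_nonneg (Real.smoothTransition.nonneg _)]
  exact Real.smoothTransition.le_one _

lemma dchi_zero {t : ℝ} (h : 2 < t) : deriv chi t = 0 := by
  have : chi =ᶠ[𝓝 t] fun _ => 1 := by
    filter_upwards [eventually_gt_nhds h] with s hs using chi_one hs.le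
  rw [this.deriv_eq, deriv_const]

lemma dchi_bound : ∃ C : ℝ, 0 ≤ C ∧ ∀ t : ℝ, 0 ≤ t → |deriv chi t| * t ≤ C := by
  obtain ⟨C, hC⟩ := (isCompact_Icc (a := (0 : ℝ)) (b := 2)).exists_bound_of_continuousOn
    (chi_contDiff.continuous_deriv le_rfl).continuousOn
  have hC0 : 0 ≤ C := le_trans (norm_nonneg _) (hC 0 ⟨le_rfl, by norm_num⟩)
  refine ⟨2 * C, by linarith, fun t ht => ?_⟩
  rcases le_or_gt t 2 with h | h
  · have := hC t ⟨ht, h⟩
    rw [Real.norm_eq_abs] at this
    nlinarith [abs_nonneg (deriv chi t)]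
  · rw [dchi_zero h]; simp [hC0]

theorem remove {d : ℕ} {F : Eu d → Eu d} {D : Eu d → ℝ}
    (hFm : AEStronglyMeasurable F) (hDm : AEStronglyMeasurable D)
    (hFb : ∀ r : ℝ, ∃ C : ℝ, ∀ x, ‖x‖ ≤ r → ‖F x‖ ≤ C)
    (hDb : ∀ r : ℝ, ∃ C : ℝ, ∀ x, ‖x‖ ≤ r → |D x| ≤ C)
    {i j : Fin d} (hij : i ≠ j) {U : Set (Eu d)}
    (H : ∀ ψ : Eu d → ℝ, ContDiff ℝ 1 ψ → HasCompactSupport ψ →
      tsupport ψ ⊆ U ∩ {x | x i ^ 2 + x j ^ 2 ≠ 0} →
      ∫ x, (fderiv ℝ ψ x (F x) + ψ x * D x) = 0)
    (φ : Eu d → ℝ) (hφ : ContDiff ℝ 1 φ) (hφc : HasCompactSupport φ) (hφU : tsupport φ ⊆ U) :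
    ∫ x, (fderiv ℝ φ x (F x) + φ x * D x) = 0 := by
  obtain ⟨N, hN⟩ : ∃ N : Eu d → ℝ, N = fun x => x i ^ 2 + x j ^ 2 := ⟨_, rfl⟩
  have hNd : ContDiff ℝ 1 N := by rw [hN]; fun_prop
  have hN0 : ∀ x, 0 ≤ N x := fun x => by rw [hN]; positivity
  have hNf : ∀ x v : Eu d, fderiv ℝ N x v = 2 * x i * v i + 2 * x j * v j := by
    intro x v
    have h1 : HasFDerivAt (fun y : Eu d => y i) (EuclideanSpace.proj i : Eu d →L[ℝ] ℝ) x :=
      (EuclideanSpace.proj i : Eu d →L[ℝ] ℝ).hasFDerivAt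
    have h2 : HasFDerivAt (fun y : Eu d => y j) (EuclideanSpace.proj j : Eu d →L[ℝ] ℝ) x :=
      (EuclideanSpace.proj j : Eu d →L[ℝ] ℝ).hasFDerivAt
    have h3 := ((h1.pow 2).add (h2.pow 2)).fderiv
    rw [hN]
    erw [h3]
    simp
  obtain ⟨r, hr⟩ := hφc.isCompact.isBounded.subset_closedBall (0 : Eu d)
  obtain ⟨CF, hCF⟩ := hFb r
  obtain ⟨CD, hCD⟩ := hDb r
  obtain ⟨Cφ, hCφ⟩ := hφc.exists_bound_of_continuous hφ.continuous
  obtain ⟨Cχ, hCχ0, hCχ⟩ := dchi_bound
  have hout : ∀ x, x ∉ closedBall (0 : Eu d) r → φ x = 0 ∧ fderiv ℝ φ x = 0 := by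
    intro x hx
    have hx' : x ∉ tsupport φ := fun h => hx (hr h)
    exact ⟨image_eq_zero_of_notMem_tsupport hx', fderiv_of_notMem_tsupport ℝ hx'⟩
  let ψ : ℕ → Eu d → ℝ := fun m x => φ x * chi (m * N x)
  have hηd : ∀ m : ℕ, ContDiff ℝ 1 (fun x => chi (m * N x)) :=
    fun m => chi_contDiff.comp (contDiff_const.mul hNd)
  have hψd : ∀ m, ContDiff ℝ 1 (ψ m) := fun m => hφ.mul (hηd m)
  have hψf : ∀ (m : ℕ) (x v : Eu d), fderiv ℝ (ψ m) x v = fderiv ℝ φ x v * chi (m * N x) +
      φ x * (deriv chi (m * N x) * (m * (2 * x i * v i + 2 * x j * v j))) := by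
    intro m x v
    have h1 : HasFDerivAt N (fderiv ℝ N x) x := (hNd.differentiable one_ne_zero x).hasFDerivAt
    have h2 : HasDerivAt chi (deriv chi (m * N x)) (m * N x) :=
      (chi_contDiff.differentiable one_ne_zero _).hasDerivAt
    have h3 := h2.comp_hasFDerivAt x (h1.const_mul (m : ℝ))
    have h4 := ((hφ.differentiable one_ne_zero x).hasFDerivAt.mul h3).fderiv
    erw [h4]
    simp only [add_apply, smul_apply, smul_eq_mul, hNf,
      Function.comp]
    ring
  have hzero : ∀ m, ∫ x, (fderiv ℝ (ψ m) x (F x) + ψ m x * D x) = 0 := by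
    intro m
    refine H (ψ m) (hψd m) hφc.mul_right (subset_inter ((tsupport_mul_subset_left).trans hφU) ?_)
    refine (tsupport_mul_subset_right).trans ?_
    have hcl : IsClosed {x : Eu d | 1 ≤ m * N x} :=
      isClosed_le continuous_const (continuous_const.mul hNd.continuous)
    refine (closure_minimal (fun x hx => ?_) hcl).trans fun x hx h => ?_
    · by_contra h
      exact hx (chi_zero (le_of_lt (not_le.1 h)))
    · have h1 : N x = 0 := by rw [hN]; exact h
      have h2 : 1 ≤ m * N x := hx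
      rw [h1] at h2
      norm_num at h2
  have hlim : Tendsto (fun m => ∫ x, (fderiv ℝ (ψ m) x (F x) + ψ m x * D x)) atTop
      (𝓝 (∫ x, (fderiv ℝ φ x (F x) + φ x * D x))) := by
    refine tendsto_integral_of_dominated_convergence
      (fun x => ‖fderiv ℝ φ x‖ * CF + |φ x| * CD + (Cφ * Cχ * 2 * CF) *
        (closedBall (0 : Eu d) r).indicator
          (fun x => |x i| ^ (-(1 / 2) : ℝ) * |x j| ^ (-(1 / 2) : ℝ)) x) (fun m => ?_) ?_
      (fun m => ?_) ?_
    · refine AEStronglyMeasurable.add ?_ ((hψd m).continuous.aestronglyMeasurable.mul hDm)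
      have hc : Continuous fun q : (Eu d →L[ℝ] ℝ) × Eu d => q.1 q.2 := by fun_prop
      exact hc.comp_aestronglyMeasurable
        (((hψd m).continuous_fderiv one_ne_zero).aestronglyMeasurable.prodMk hFm)
    · refine (Integrable.add ?_ ?_).add ((int_weight hij r).const_mul _)
      · exact ((hφ.continuous_fderiv one_ne_zero).norm.integrable_of_hasCompactSupport
          (hφc.fderiv ℝ).norm).mul_const _
      · exact (hφ.continuous.abs.integrable_of_hasCompactSupport hφc.abs).mul_const _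
    · filter_upwards [ae_coord_ne i, ae_coord_ne j] with x hxi hxj
      by_cases hx : x ∈ closedBall (0 : Eu d) r
      · rw [indicator_of_mem hx, hψf, Real.norm_eq_abs]
        have hxr := mem_closedBall_zero_iff.1 hx
        have hF := hCF x hxr
        have hD := hCD x hxr
        have hφx : |φ x| ≤ Cφ := hCφ x
        have hχ := chi_abs (m * N x)
        have hNpos : 0 < N x := by rw [hN]; positivity
        have e1 : |fderiv ℝ φ x (F x) * chi (m * N x)| ≤ ‖fderiv ℝ φ x‖ * CF := by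
          rw [abs_mul]
          have a1 : |fderiv ℝ φ x (F x)| ≤ ‖fderiv ℝ φ x‖ * CF :=
            ((fderiv ℝ φ x).le_opNorm (F x)).trans
              (mul_le_mul_of_nonneg_left hF (norm_nonneg _))
          nlinarith [abs_nonneg (fderiv ℝ φ x (F x)), abs_nonneg (chi (m * N x))]
        have e2 : |ψ m x * D x| ≤ |φ x| * CD := by
          simp only [ψ, abs_mul]
          have a1 : |φ x| * |chi (m * N x)| ≤ |φ x| := by nlinarith [abs_nonneg (φ x)]
          exact mul_le_mul a1 hD (abs_nonneg _) (abs_nonneg _)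
        have e3 : |φ x * (deriv chi (m * N x) * (m * (2 * x i * F x i + 2 * x j * F x j)))| ≤
            (Cφ * Cχ * 2 * CF) * (|x i| ^ (-(1 / 2) : ℝ) * |x j| ^ (-(1 / 2) : ℝ)) := by
          have a1 : |F x i| ≤ CF := (PiLp.norm_apply_le (F x) i).trans hF
          have a2 : |F x j| ≤ CF := (PiLp.norm_apply_le (F x) j).trans hF
          have a3 : |2 * x i * F x i + 2 * x j * F x j| ≤ 2 * CF * (|x i| + |x j|) := by
            refine (abs_add_le _ _).trans ?_
            rw [abs_mul, abs_mul, abs_mul, abs_mul, abs_two]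
            nlinarith [abs_nonneg (x i), abs_nonneg (x j)]
          have a4 : |deriv chi (m * N x)| * m ≤ Cχ / N x := by
            rw [le_div_iff₀ hNpos, mul_assoc]
            exact hCχ _ (mul_nonneg (Nat.cast_nonneg m) hNpos.le)
          have a5 := weight_ineq hxi hxj
          have hCF0 : 0 ≤ CF := le_trans (abs_nonneg _) a1
          have hCφ0 : 0 ≤ Cφ := le_trans (abs_nonneg _) hφx
          rw [abs_mul, abs_mul, abs_mul, Nat.abs_cast, ← mul_assoc (|deriv chi (m * N x)|)]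
          calc |φ x| * (|deriv chi (m * N x)| * m * |2 * x i * F x i + 2 * x j * F x j|)
              ≤ Cφ * (Cχ / N x * (2 * CF * (|x i| + |x j|))) := by gcongr
            _ = (Cφ * Cχ * 2 * CF) * ((|x i| + |x j|) / (x i ^ 2 + x j ^ 2)) := by
                rw [hN]; ring
            _ ≤ _ := mul_le_mul_of_nonneg_left a5 (by positivity)
        refine (abs_add_le _ _).trans ?_
        have e4 := abs_add_le (fderiv ℝ φ x (F x) * chi (m * N x))
          (φ x * (deriv chi (m * N x) * (m * (2 * x i * F x i + 2 * x j * F x j))))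
        linarith
      · rw [indicator_of_notMem hx, hψf]
        simp [ψ, (hout x hx).1, (hout x hx).2]
    · filter_upwards [ae_coord_ne i] with x hxi
      have hNpos : 0 < N x := by rw [hN]; positivity
      refine tendsto_const_nhds.congr' ?_
      have : ∀ᶠ m : ℕ in atTop, 2 < m * N x :=
        (tendsto_natCast_atTop_atTop.atTop_mul_const hNpos).eventually_gt_atTop 2
      filter_upwards [this] with m hm
      rw [hψf]
      simp [ψ, chi_one hm.le, dchi_zero hm]
  simp only [hzero] at hlim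
  exact tendsto_nhds_unique hlim tendsto_const_nhds ▸ rfl

end Pool.Agent.H27Z.PH
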