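import Mathlib
import Pool.Agent.H27Z.PH.Remove

set_option autoImplicit false

namespace Pool.Agent.H27Z.PH

open Set Filter Topology MeasureTheory Metric
open scoped RealInnerProductSpace

/-- integrable with integral zero -/
def IZ {d : ℕ} (u : Eu d → ℝ) : Prop := Integrable u ∧ ∫ x, u x = 0

lemma IZ.add {d : ℕ} {u v : Eu d → ℝ} (hu : IZ u) (hv : IZ v) : IZ (fun x => u x + v x) :=
  ⟨hu.1.add hv.1, by rw [integral_add hu.1 hv.1, hu.2, hv.2, add_zero]⟩

lemma IZ.sum {d : ℕ} {ι : Type*} [Fintype ι] {u : ι → Eu d → ℝ} (hu : ∀ i, IZ (u i)) :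
    IZ (fun x => ∑ i, u i x) :=
  ⟨integrable_finsetSum _ fun i _ => (hu i).1, by
    rw [integral_finsetSum _ fun i _ => (hu i).1]
    exact Finset.sum_eq_zero fun i _ => (hu i).2⟩

lemma int_mul {d : ℕ} {U : Set (Eu d)} (hU : IsOpen U) {f ψ : Eu d → ℝ}
    (hf : ContinuousOn f U) (hψ : Continuous ψ) (hc : HasCompactSupport ψ)
    (hs : tsupport ψ ⊆ U) : Integrable (fun x => f x * ψ x) := by
  have h1 : Continuous (fun x => f x * ψ x) :=
    (hf.mul hψ.continuousOn).continuous_of_tsupport_subset hU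
      ((tsupport_mul_subset_right).trans hs)
  exact h1.integrable_of_hasCompactSupport hc.mul_left

lemma ibp_const {d : ℕ} {U : Set (Eu d)} (hU : IsOpen U) {f ψ : Eu d → ℝ} {γ : Eu d → Eu d}
    (hf : ∀ x ∈ U, HasFDerivAt f (innerSL ℝ (γ x)) x) (hγ : ContinuousOn γ U)
    (hψ : ContDiff ℝ 1 ψ) (hc : HasCompactSupport ψ) (hs : tsupport ψ ⊆ U) (v : Eu d) :
    IZ (fun x => fderiv ℝ ψ x (f x • v) + ψ x * ⟪γ x, v⟫) := by
  have hfc : ContinuousOn f U := fun x hx => (hf x hx).continuousAt.continuousWithinAt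
  have h1 : Integrable (fun x => ⟪γ x, v⟫ * ψ x) :=
    int_mul hU (hγ.inner (𝕜 := ℝ) continuousOn_const) hψ.continuous hc hs
  have h2 : Integrable (fun x => f x * fderiv ℝ ψ x v) := by
    refine int_mul hU hfc ((hψ.continuous_fderiv one_ne_zero).clm_apply continuous_const)
      (hc.fderiv_apply ℝ v) ((tsupport_fderiv_apply_subset ℝ v).trans hs)
  have h3 : Integrable (fun x => f x * ψ x) := int_mul hU hfc hψ.continuous hc hs
  have h4 := integral_bilinear_hasFDerivAt_right_eq_neg_left_of_integrable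
    (μ := (volume : Measure (Eu d))) (f := f) (f' := fun x => innerSL ℝ (γ x)) (g := ψ)
    (g' := fderiv ℝ ψ) (v := v) (B := ContinuousLinearMap.mul ℝ ℝ) h1 h2 h3
    (fun x hx => hf x (hs hx)) (fun x _ => (hψ.differentiable one_ne_zero x).hasFDerivAt)
  have e : (fun x => fderiv ℝ ψ x (f x • v) + ψ x * ⟪γ x, v⟫) =
      fun x => f x * fderiv ℝ ψ x v + ⟪γ x, v⟫ * ψ x := by
    funext x
    rw [map_smul, smul_eq_mul, mul_comm (ψ x)]
  rw [e]
  refine ⟨h2.add h1, ?_⟩
  rw [integral_add h2 h1]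
  have h5 : ∫ x, f x * fderiv ℝ ψ x v = - ∫ x, ⟪γ x, v⟫ * ψ x := h4
  rw [h5, neg_add_cancel]

/-- diagonal linear map -/
noncomputable def dg {d : ℕ} (τ : Fin d → ℝ) (x : Eu d) : Eu d :=
  WithLp.toLp 2 fun i => τ i * x i

@[simp] lemma dg_apply {d : ℕ} (τ : Fin d → ℝ) (x : Eu d) (i : Fin d) : dg τ x i = τ i * x i := rfl

lemma dg_continuous {d : ℕ} (τ : Fin d → ℝ) : Continuous (dg τ) := by
  unfold dg
  fun_prop

lemma dg_smul {d : ℕ} (τ : Fin d → ℝ) (t : ℝ) (x : Eu d) : dg τ (t • x) = t • dg τ x := by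
  ext i
  simp
  ring

lemma inner_eq {d : ℕ} (x y : Eu d) : ⟪x, y⟫ = ∑ i, x i * y i := by
  simp [PiLp.inner_apply, mul_comm]

lemma ibp_diag {d : ℕ} {U : Set (Eu d)} (hU : IsOpen U) {f ψ : Eu d → ℝ} {γ : Eu d → Eu d}
    (hf : ∀ x ∈ U, HasFDerivAt f (innerSL ℝ (γ x)) x) (hγ : ContinuousOn γ U)
    (hψ : ContDiff ℝ 1 ψ) (hc : HasCompactSupport ψ) (hs : tsupport ψ ⊆ U) (τ : Fin d → ℝ) :
    IZ (fun x => fderiv ℝ ψ x (f x • dg τ x) + ψ x * (⟪γ x, dg τ x⟫ + (∑ i, τ i) * f x)) := by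
  have hfc : ContinuousOn f U := fun x hx => (hf x hx).continuousAt.continuousWithinAt
  have h := IZ.sum (ι := Fin d) fun i => ibp_const hU (f := fun x => f x * (τ i * x i))
    (γ := fun x => (τ i * x i) • γ x + (f x * τ i) • EuclideanSpace.single i (1 : ℝ))
    (fun x hx => by
      have h1 : HasFDerivAt (fun y : Eu d => y i) (EuclideanSpace.proj i : Eu d →L[ℝ] ℝ) x :=
        (EuclideanSpace.proj i : Eu d →L[ℝ] ℝ).hasFDerivAt
      refine ((hf x hx).mul (h1.const_mul (τ i))).congr_fderiv ?_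
      ext v
      simp [EuclideanSpace.inner_single_left]
      ring)
    (by
      have h0 : ContinuousOn (fun x : Eu d => τ i * x i) U := by fun_prop
      refine ContinuousOn.add (h0.smul hγ) ?_
      exact (hfc.mul continuousOn_const).smul continuousOn_const)
    hψ hc hs (EuclideanSpace.single i (1 : ℝ))
  convert h using 2 with x
  rw [Finset.sum_add_distrib, ← map_sum, ← Finset.mul_sum]
  congr 2
  · ext j
    simp [Pi.single_apply]
  · rw [inner_eq, Finset.sum_mul, ← Finset.sum_add_distrib]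
    refine Finset.sum_congr rfl fun i _ => ?_
    simp [inner_add_left, inner_smul_left, EuclideanSpace.inner_single_right]
    ring

end Pool.Agent.H27Z.PH
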