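import Mathlib
import Pool.Agent.H27Z.PH.Shoot

set_option autoImplicit false

namespace Pool.Agent.H27Z.PH

open Set Filter Topology

lemma bound_right {g g1 z : ℝ → ℝ} {c0 : ℝ}
    (hg : ∀ c ∈ Ico c0 1, HasDerivAt g (g1 c) c) (hpos : ∀ c ∈ Ico c0 1, 0 < g1 c)
    (hgz : ∀ c ∈ Ico c0 1, g c = z c * g1 c) (hz : ∀ c ∈ Ico c0 1, 1 / 8 ≤ z c)
    (h0 : 0 ≤ c0) (h1 : c0 < 1) : ∀ c ∈ Ico c0 1, g1 c ≤ 8 * (g c0 * Real.exp 8) := by
  have hd : ∀ c ∈ Ico c0 1, HasDerivAt (fun c => g c * Real.exp (-8 * c))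
      (g1 c * Real.exp (-8 * c) + g c * (Real.exp (-8 * c) * (-8 * 1))) c := by
    intro c hc
    exact (hg c hc).mul (((hasDerivAt_id c).const_mul (-8)).exp)
  have hanti : AntitoneOn (fun c => g c * Real.exp (-8 * c)) (Ico c0 1) := by
    refine antitoneOn_of_deriv_nonpos (convex_Ico _ _)
      (fun c hc => (hd c hc).continuousAt.continuousWithinAt)
      (fun c hc => (hd c (interior_subset hc)).differentiableAt.differentiableWithinAt) ?_
    intro c hc
    have hc' := interior_subset hc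
    rw [(hd c hc').deriv, hgz c hc']
    have e1 := Real.exp_pos (-8 * c)
    have e2 := hpos c hc'
    have e3 := hz c hc'
    have e4 : 0 ≤ g1 c * Real.exp (-8 * c) * (8 * z c - 1) :=
      mul_nonneg (by positivity) (by linarith)
    nlinarith
  intro c hc
  have h := hanti ⟨le_rfl, h1⟩ hc hc.1
  simp only at h
  have hg0 : 0 ≤ g c0 := by
    rw [hgz c0 ⟨le_rfl, h1⟩]
    exact mul_nonneg (by linarith [hz c0 ⟨le_rfl, h1⟩]) (hpos c0 ⟨le_rfl, h1⟩).le
  have e1 : Real.exp (-8 * c0) ≤ 1 := Real.exp_le_one_iff.2 (by linarith)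
  have e2 : g c * Real.exp (-8 * c) ≤ g c0 := h.trans (by nlinarith)
  have e3 : Real.exp (-8 * c) * Real.exp (8 * c) = 1 := by rw [← Real.exp_add]; simp
  have e4 : Real.exp (8 * c) ≤ Real.exp 8 := Real.exp_le_exp.2 (by linarith [hc.2])
  have e5 : g c ≤ g c0 * Real.exp 8 := by
    calc g c = g c * Real.exp (-8 * c) * Real.exp (8 * c) := by rw [mul_assoc, e3, mul_one]
      _ ≤ g c0 * Real.exp (8 * c) := mul_le_mul_of_nonneg_right e2 (Real.exp_pos _).le
      _ ≤ g c0 * Real.exp 8 := mul_le_mul_of_nonneg_left e4 hg0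
  have e6 := hgz c hc
  have e7 := hz c hc
  have e8 := hpos c hc
  nlinarith

theorem profile {n p : ℝ} (hn : 4 ≤ n) (hp : 1 < p) (hp2 : p < 2)
    (hcond : (2 - p) * (3 * p + 2) < (n - 1) * p - 2) :
    ∃ k : ℝ, 2 ≤ k ∧ k < 1 + 2 / p ∧ ∃ (g g1 T1 T2 T1' T2' : ℝ → ℝ) (C : ℝ),
      (∀ c, |g c| ≤ C ∧ |g1 c| ≤ C) ∧
      (∀ c ∈ Ioo (-1 : ℝ) 1, HasDerivAt g (g1 c) c ∧ 0 < g1 c ∧
        HasDerivAt T1 (T1' c) c ∧ HasDerivAt T2 (T2' c) c ∧
        T1 c = (k ^ 2 * g c ^ 2 + 4 * (1 - c ^ 2) * g1 c ^ 2) ^ ((p - 2) / 2) *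
          (k * g c - 2 * c * g1 c) ∧
        T2 c = (k ^ 2 * g c ^ 2 + 4 * (1 - c ^ 2) * g1 c ^ 2) ^ ((p - 2) / 2) * (2 * g1 c) ∧
        ((k - 1) * (p - 1) - 1 + n) * T1 c + ((k - 1) * (p - 1) - 1) * c * T2 c +
          2 * (1 - c ^ 2) * T2' c = 0) ∧
      ContinuousOn g1 (Ioo (-1) 1) ∧ ContinuousOn T1' (Ioo (-1) 1) ∧
      ContinuousOn T2' (Ioo (-1) 1) := by
  obtain ⟨k, hk2, hk, z, hz0, hz, hzb, hzl⟩ := shoot hn hp hp2 hcond
  refine ⟨k, hk2, hk, ?_⟩
  have hzc : ContinuousOn z (Ioo (-1) 1) := fun c hc => (hz c hc).continuousAt.continuousWithinAt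
  obtain ⟨y, hy⟩ : ∃ y : ℝ → ℝ, y = fun c => Yq n p k c (z c) := ⟨_, rfl⟩
  have hyc : ContinuousOn y (Ioo (-1) 1) := by
    rw [hy]
    have h1 := (Yq_contDiffOn n hp univ).continuousOn
    have h2 : ContinuousOn (fun c : ℝ => ((k, c, z c) : ℝ × ℝ × ℝ)) (Ioo (-1) 1) :=
      continuousOn_const.prodMk (continuousOn_id.prodMk hzc)
    exact h1.comp h2 (fun c hc => ⟨mem_univ _, hc, mem_univ _⟩)
  have hI : ∀ c ∈ Ioo (-1 : ℝ) 1, HasDerivAt (fun c => ∫ t in (0 : ℝ)..c, y t) (y c) c := by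
    intro c hc
    refine intervalIntegral.integral_hasDerivAt_right ?_ ?_
      (hyc.continuousAt (Ioo_mem_nhds hc.1 hc.2))
    · refine (hyc.mono ?_).intervalIntegrable
      exact ordConnected_Ioo.uIcc_subset ⟨by norm_num, by norm_num⟩ hc
    · exact hyc.stronglyMeasurableAtFilter isOpen_Ioo c hc
  obtain ⟨G, hG⟩ : ∃ G : ℝ → ℝ, G = fun c => Real.exp (∫ t in (0 : ℝ)..c, y t) := ⟨_, rfl⟩
  have hGpos : ∀ c, 0 < G c := fun c => by rw [hG]; exact Real.exp_pos _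
  have hGd : ∀ c ∈ Ioo (-1 : ℝ) 1, HasDerivAt G (G c * y c) c := by
    intro c hc
    rw [hG]; exact (hI c hc).exp
  have hGc : ContinuousOn G (Ioo (-1) 1) := fun c hc => (hGd c hc).continuousAt.continuousWithinAt
  obtain ⟨g, hg⟩ : ∃ g : ℝ → ℝ, g = fun c => z c * G c := ⟨_, rfl⟩
  have hgd : ∀ c ∈ Ioo (-1 : ℝ) 1, HasDerivAt g (G c) c := by
    intro c hc
    rw [hg]
    have h := (hz c hc).mul (hGd c hc)
    have e : Phi n p k c (z c) * G c + z c * (G c * y c) = G c := by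
      rw [hy]; unfold Phi; ring
    rw [e] at h
    exact h
  have hgc : ContinuousOn g (Ioo (-1) 1) := fun c hc => (hgd c hc).continuousAt.continuousWithinAt
  have hgz : ∀ c, g c = z c * G c := fun c => by rw [hg]
  -- bound on G
  obtain ⟨C0, hC0⟩ : ∃ C0 : ℝ, ∀ c ∈ Ioo (-1 : ℝ) 1, G c ≤ C0 := by
    have hsub : Icc (-(999 / 1000) : ℝ) (999 / 1000) ⊆ Ioo (-1) 1 :=
      fun c hc => ⟨by linarith [hc.1], by linarith [hc.2]⟩
    obtain ⟨C1, hC1⟩ := isCompact_Icc.exists_bound_of_continuousOn (hGc.mono hsub)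
    have hI1 : ∀ c ∈ Ico (999 / 1000 : ℝ) 1, c ∈ Ioo (-1 : ℝ) 1 :=
      fun c hc => ⟨by linarith [hc.1], hc.2⟩
    have hI2 : ∀ c ∈ Ico (999 / 1000 : ℝ) 1, -c ∈ Ioo (-1 : ℝ) 1 :=
      fun c hc => ⟨by linarith [hc.2], by linarith [hc.1]⟩
    have hR := bound_right (g := g) (g1 := G) (z := z) (c0 := 999 / 1000)
      (fun c hc => hgd c (hI1 c hc)) (fun c _ => hGpos c) (fun c _ => hgz c)
      (fun c hc => (hzl c hc).1) (by norm_num) (by norm_num)
    have hL := bound_right (g := fun c => - g (-c)) (g1 := fun c => G (-c)) (z := fun c => - z (-c))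
      (c0 := 999 / 1000)
      (fun c hc => by
        have h2 := ((hgd _ (hI2 c hc)).comp c (hasDerivAt_neg c)).fun_neg
        rw [mul_neg, mul_one, neg_neg] at h2
        exact h2)
      (fun c _ => hGpos _) (fun c _ => by rw [hgz]; ring)
      (fun c hc => by linarith [(hzl c hc).2]) (by norm_num) (by norm_num)
    refine ⟨max C1 (max (8 * (g (999 / 1000) * Real.exp 8))
      (8 * (-g (-(999 / 1000)) * Real.exp 8))), fun c hc => ?_⟩
    rcases le_or_gt (999 / 1000) c with h | h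
    · exact le_max_of_le_right (le_max_of_le_left (hR c ⟨h, hc.2⟩))
    · rcases le_or_gt c (-(999 / 1000)) with h' | h'
      · have := hL (-c) ⟨by linarith, by linarith [hc.1]⟩
        simp only [neg_neg] at this
        exact le_max_of_le_right (le_max_of_le_right this)
      · have := hC1 c ⟨h'.le, h.le⟩
        exact le_max_of_le_left ((le_abs_self _).trans this)
  have hC0pos : 0 < C0 := lt_of_lt_of_le (hGpos 0) (hC0 0 ⟨by norm_num, by norm_num⟩)
  obtain ⟨ρ, hρ⟩ : ∃ ρ : ℝ → ℝ, ρ = fun c => k ^ 2 * g c ^ 2 + 4 * (1 - c ^ 2) * G c ^ 2 :=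
    ⟨_, rfl⟩
  have hρD : ∀ c, ρ c = G c ^ 2 * Dq k c (z c) := fun c => by
    rw [hρ]; simp only [hgz]; unfold Dq; ring
  have hρpos : ∀ c ∈ Ioo (-1 : ℝ) 1, 0 < ρ c := fun c hc => by
    rw [hρD]; exact mul_pos (pow_pos (hGpos c) 2) (Dq_pos hc)
  obtain ⟨ρ', hρ'⟩ : ∃ ρ' : ℝ → ℝ, ρ' = fun c =>
      G c ^ 2 * (2 * k ^ 2 * z c - 8 * c + 8 * (1 - c ^ 2) * y c) := ⟨_, rfl⟩
  have hρd : ∀ c ∈ Ioo (-1 : ℝ) 1, HasDerivAt ρ (ρ' c) c := by
    intro c hc
    have h1 := ((hgd c hc).fun_pow 2).const_mul (k ^ 2)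
    have h2 := ((((hasDerivAt_id' c).fun_pow 2).const_sub 1).const_mul 4).fun_mul
      ((hGd c hc).fun_pow 2)
    have h3 := h1.fun_add h2
    rw [hρ, hρ']
    refine h3.congr_deriv ?_
    simp only [hgz]
    norm_num
    ring
  have hρc : ContinuousOn ρ (Ioo (-1) 1) := fun c hc => (hρd c hc).continuousAt.continuousWithinAt
  have hρ'c : ContinuousOn ρ' (Ioo (-1) 1) := by rw [hρ']; fun_prop
  obtain ⟨w, hw⟩ : ∃ w : ℝ → ℝ, w = fun c => ρ c ^ ((p - 2) / 2) := ⟨_, rfl⟩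
  obtain ⟨w', hw'⟩ : ∃ w' : ℝ → ℝ, w' = fun c => w c * ((p - 2) / 2) * (ρ' c / ρ c) := ⟨_, rfl⟩
  have hwd : ∀ c ∈ Ioo (-1 : ℝ) 1, HasDerivAt w (w' c) c := by
    intro c hc
    have h := (hρd c hc).rpow_const (p := (p - 2) / 2) (Or.inl (hρpos c hc).ne')
    rw [hw', hw]
    refine h.congr_deriv ?_
    rw [Real.rpow_sub_one (hρpos c hc).ne']
    ring
  have hwc : ContinuousOn w (Ioo (-1) 1) := fun c hc => (hwd c hc).continuousAt.continuousWithinAt
  have hw'c : ContinuousOn w' (Ioo (-1) 1) := by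
    rw [hw']
    exact (hwc.mul continuousOn_const).mul (hρ'c.div hρc fun c hc => (hρpos c hc).ne')
  refine ⟨(Ioo (-1 : ℝ) 1).indicator g, (Ioo (-1 : ℝ) 1).indicator G,
    fun c => w c * (k * g c - 2 * c * G c), fun c => w c * (2 * G c),
    fun c => w' c * (k * g c - 2 * c * G c) + w c * (k * G c - (2 * G c + 2 * c * (G c * y c))),
    fun c => w' c * (2 * G c) + w c * (2 * (G c * y c)), 2 * C0, fun c => ?_, fun c hc => ?_,
    ?_, ?_, ?_⟩
  · by_cases hc : c ∈ Ioo (-1 : ℝ) 1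
    · rw [indicator_of_mem hc, indicator_of_mem hc, hgz, abs_mul, abs_of_pos (hGpos c)]
      have h1 := hzb c hc
      have h2 := hC0 c hc
      have h3 := hGpos c
      constructor <;> nlinarith [abs_nonneg (z c)]
    · rw [indicator_of_notMem hc, indicator_of_notMem hc, abs_zero]
      constructor <;> linarith
  · rw [indicator_of_mem hc, indicator_of_mem hc]
    refine ⟨?_, hGpos c, ?_, ?_, ?_, ?_, ?_⟩
    · refine (hgd c hc).congr_of_eventuallyEq ?_
      filter_upwards [Ioo_mem_nhds hc.1 hc.2] with t ht using indicator_of_mem ht _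
    · have h1 := ((hasDerivAt_id' c).const_mul 2).fun_mul (hGd c hc)
      have h2 := (hwd c hc).fun_mul (((hgd c hc).const_mul k).fun_sub h1)
      refine h2.congr_deriv ?_
      ring
    · exact (hwd c hc).fun_mul ((hGd c hc).const_mul 2)
    · rw [hw, hρ]
    · rw [hw, hρ]
    · have hD := (Dq_pos (k := k) (z := z c) hc).ne'
      have hD1 := (D1_pos (k := k) (z := z c) hp hc).ne'
      have hu := (u_pos hc).ne'
      have hG0 := (hGpos c).ne'
      have hyN : y c * (2 * (1 - c ^ 2) * D1 p k c (z c)) = Num n p k c (z c) := by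
        rw [hy]; unfold Yq; field_simp
      have e1 : ρ' c / ρ c =
          (2 * k ^ 2 * z c - 8 * c + 8 * (1 - c ^ 2) * y c) / Dq k c (z c) := by
        rw [hρD, hρ']; field_simp
      have e2 : D1 p k c (z c) = Dq k c (z c) - 4 * (2 - p) * (1 - c ^ 2) := by
        unfold D1 Dq; ring
      simp only [hw', e1, hgz]
      rw [e2] at hyN
      unfold Num Mq at hyN
      have e3 : ((k - 1) * (p - 1) - 1 + n) * (w c * (k * (z c * G c) - 2 * c * G c)) +
          ((k - 1) * (p - 1) - 1) * c * (w c * (2 * G c)) +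
          2 * (1 - c ^ 2) * (w c * ((p - 2) / 2) *
            ((2 * k ^ 2 * z c - 8 * c + 8 * (1 - c ^ 2) * y c) / Dq k c (z c)) * (2 * G c) +
            w c * (2 * (G c * y c))) =
          2 * w c * G c / Dq k c (z c) *
            (y c * (2 * (1 - c ^ 2) * (Dq k c (z c) - 4 * (2 - p) * (1 - c ^ 2))) -
              ((n * c - ((k - 1) * (p - 1) + n - 1) * k / 2 * z c) * Dq k c (z c) +
                2 * (1 - c ^ 2) * (2 - p) * (k ^ 2 * z c - 4 * c))) := by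
        field_simp
        ring
      rw [e3, hyN, sub_self, mul_zero]
  · exact hGc.congr fun c hc => indicator_of_mem hc _
  · fun_prop
  · fun_prop

end Pool.Agent.H27Z.PH
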