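import Mathlib
import Pool.Agent.H27Z.PH.Ibp
import Pool.Agent.H27Z.PH.Profile

set_option autoImplicit false

namespace Pool.Agent.H27Z.PH

open Set Filter Topology MeasureTheory Metric
open scoped RealInnerProductSpace

variable {d : ℕ}

/-- diagonal quadratic form -/
noncomputable def qf (τ : Fin d → ℝ) (x : Eu d) : ℝ := ∑ i, τ i * x i ^ 2

lemma qf_continuous (τ : Fin d → ℝ) : Continuous (qf τ) := by
  unfold qf
  fun_prop

lemma qf_smul (τ : Fin d → ℝ) (t : ℝ) (x : Eu d) : qf τ (t • x) = t ^ 2 * qf τ x := by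
  unfold qf
  rw [Finset.mul_sum]
  refine Finset.sum_congr rfl fun i _ => ?_
  simp
  ring

lemma qf_hasFDerivAt (τ : Fin d → ℝ) (x : Eu d) :
    HasFDerivAt (qf τ) (innerSL ℝ ((2 : ℝ) • dg τ x)) x := by
  have h : ∀ i, HasFDerivAt (fun y : Eu d => τ i * y i ^ 2)
      (τ i • ((2 * x i) • (EuclideanSpace.proj i : Eu d →L[ℝ] ℝ))) x := by
    intro i
    have h1 : HasFDerivAt (fun y : Eu d => y i) (EuclideanSpace.proj i : Eu d →L[ℝ] ℝ) x :=
      (EuclideanSpace.proj i : Eu d →L[ℝ] ℝ).hasFDerivAt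
    refine ((h1.pow 2).const_mul (τ i)).congr_fderiv ?_
    simp
  refine (HasFDerivAt.fun_sum (u := Finset.univ) fun i _ => h i).congr_fderiv ?_
  ext v
  simp only [innerSL_apply_apply, inner_eq]
  rw [sum_apply]
  refine Finset.sum_congr rfl fun i _ => ?_
  simp
  ring

lemma inner_dg (τ τ' : Fin d → ℝ) (x : Eu d) :
    ⟪dg τ x, dg τ' x⟫ = qf (fun i => τ i * τ' i) x := by
  rw [inner_eq]
  unfold qf
  refine Finset.sum_congr rfl fun i _ => ?_
  simp
  ring

section sigma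

variable (σ : Fin d → ℝ)

noncomputable def Rr (x : Eu d) : ℝ := qf (fun i => σ i ^ 2) x

noncomputable def cc (x : Eu d) : ℝ := qf σ x / Rr σ x

noncomputable def Pv (x : Eu d) : Eu d := dg (fun i => σ i ^ 2) x

def Ug : Set (Eu d) := {x | -Rr σ x < qf σ x ∧ qf σ x < Rr σ x}

noncomputable def grad (a t t' : ℝ) (x : Eu d) : Eu d :=
  Rr σ x ^ (a - 1) • ((2 * a * t - 2 * cc σ x * t') • Pv σ x + (2 * t') • dg σ x)

lemma Rr_continuous : Continuous (Rr σ) := qf_continuous _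

lemma Rr_nonneg (x : Eu d) : 0 ≤ Rr σ x := by
  unfold Rr qf
  exact Finset.sum_nonneg fun i _ => by positivity

lemma Ug_open : IsOpen (Ug σ) :=
  (isOpen_lt (Rr_continuous σ).neg (qf_continuous σ)).inter
    (isOpen_lt (qf_continuous σ) (Rr_continuous σ))

variable {σ}

lemma Ug_pos {x : Eu d} (hx : x ∈ Ug σ) : 0 < Rr σ x := by
  have h1 := hx.1
  have h2 := hx.2
  linarith

lemma Ug_cc {x : Eu d} (hx : x ∈ Ug σ) : cc σ x ∈ Ioo (-1 : ℝ) 1 := by
  have h := Ug_pos hx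
  unfold cc
  constructor
  · rw [lt_div_iff₀ h]; linarith [hx.1]
  · rw [div_lt_iff₀ h]; linarith [hx.2]

lemma cc_mul {x : Eu d} (hx : x ∈ Ug σ) : qf σ x = cc σ x * Rr σ x := by
  have h := (Ug_pos hx).ne'
  unfold cc
  field_simp

lemma cc_continuousOn : ContinuousOn (cc σ) (Ug σ) :=
  (qf_continuous σ).continuousOn.div (Rr_continuous σ).continuousOn fun _ hx => (Ug_pos hx).ne'

lemma cc_smul {t : ℝ} (ht : t ≠ 0) (x : Eu d) : cc σ (t • x) = cc σ x := by
  unfold cc Rr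
  rw [qf_smul, qf_smul, mul_div_mul_left _ _ (pow_ne_zero 2 ht)]

lemma Ug_smul {t : ℝ} (ht : t ≠ 0) {x : Eu d} (hx : x ∈ Ug σ) : t • x ∈ Ug σ := by
  have h : 0 < t ^ 2 := by positivity
  have h1 := hx.1
  have h2 := hx.2
  unfold Rr at h1 h2
  constructor
  · unfold Rr; rw [qf_smul, qf_smul]; nlinarith
  · unfold Rr; rw [qf_smul, qf_smul]; nlinarith

lemma hasFDerivAt_comp {x : Eu d} (hx : x ∈ Ug σ) (a : ℝ) {T : ℝ → ℝ} {t' : ℝ}
    (hT : HasDerivAt T t' (cc σ x)) :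
    HasFDerivAt (fun y => Rr σ y ^ a * T (cc σ y)) (innerSL ℝ (grad σ a (T (cc σ x)) t' x)) x := by
  have hR := Ug_pos hx
  have h1 : HasFDerivAt (Rr σ) (innerSL ℝ ((2 : ℝ) • Pv σ x)) x := qf_hasFDerivAt _ x
  have h2 := qf_hasFDerivAt σ x
  have h3 := (h2.mul ((hasDerivAt_inv hR.ne').comp_hasFDerivAt x h1)).congr_of_eventuallyEq
    (f₁ := cc σ) (Eventually.of_forall fun y => by simp [cc, div_eq_mul_inv])
  have h4 := (h1.rpow_const (p := a) (Or.inl hR.ne')).mul (hT.comp_hasFDerivAt x h3)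
  refine h4.congr_fderiv ?_
  ext v
  have e : Rr σ x ^ a = Rr σ x ^ (a - 1) * Rr σ x := by
    rw [Real.rpow_sub_one hR.ne']; field_simp
  simp only [grad, add_apply, smul_apply, innerSL_apply_apply, inner_add_left, inner_smul_left,
    smul_eq_mul, Function.comp, conj_trivial, e, cc_mul hx]
  field_simp
  ring

lemma grad_continuousOn (a : ℝ) {T T' : ℝ → ℝ} (hT : ContinuousOn T (Ioo (-1) 1))
    (hT' : ContinuousOn T' (Ioo (-1) 1)) :
    ContinuousOn (fun x => grad σ a (T (cc σ x)) (T' (cc σ x)) x) (Ug σ) := by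
  have h1 : ContinuousOn (fun x => T (cc σ x)) (Ug σ) :=
    hT.comp cc_continuousOn fun _ hx => Ug_cc hx
  have h2 : ContinuousOn (fun x => T' (cc σ x)) (Ug σ) :=
    hT'.comp cc_continuousOn fun _ hx => Ug_cc hx
  have h3 : ContinuousOn (fun x => Rr σ x ^ (a - 1)) (Ug σ) :=
    (Rr_continuous σ).continuousOn.rpow_const fun _ hx => Or.inl (Ug_pos hx).ne'
  have h4 : ContinuousOn (cc σ) (Ug σ) := cc_continuousOn
  have h5 : ContinuousOn (Pv σ) (Ug σ) := (dg_continuous _).continuousOn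
  have h6 : ContinuousOn (dg σ) (Ug σ) := (dg_continuous _).continuousOn
  unfold grad
  exact h3.smul ((((continuousOn_const.mul h1).sub ((continuousOn_const.mul h4).mul h2)).smul
    h5).add ((continuousOn_const.mul h2).smul h6))

lemma grad_smul (a t t' : ℝ) {s : ℝ} (hs : 0 < s) (x : Eu d) :
    grad σ a t t' (s • x) = s ^ (2 * a - 1) • grad σ a t t' x := by
  unfold grad
  rw [cc_smul hs.ne']
  unfold Pv
  rw [dg_smul, dg_smul]
  have e1 : Rr σ (s • x) = s ^ 2 * Rr σ x := qf_smul _ _ _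
  have e2 : (s ^ 2) ^ (a - 1) * s = s ^ (2 * a - 1) := by
    rw [← Real.rpow_natCast, ← Real.rpow_mul hs.le, ← Real.rpow_add_one hs.ne']
    congr 1
    push_cast
    ring
  rw [e1, Real.mul_rpow (by positivity) (Rr_nonneg σ x), ← e2]
  module

section three

variable (h3 : ∀ i, σ i ^ 3 = σ i)
include h3

lemma inner_PP (x : Eu d) : ⟪Pv σ x, Pv σ x⟫ = Rr σ x := by
  unfold Pv Rr
  rw [inner_dg]
  congr 1
  funext i
  have := h3 i
  calc σ i ^ 2 * σ i ^ 2 = σ i ^ 3 * σ i := by ring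
    _ = σ i ^ 2 := by rw [this]; ring

lemma inner_PS (x : Eu d) : ⟪Pv σ x, dg σ x⟫ = qf σ x := by
  unfold Pv
  rw [inner_dg]
  congr 1
  funext i
  have := h3 i
  calc σ i ^ 2 * σ i = σ i ^ 3 := by ring
    _ = σ i := this

omit h3 in
lemma inner_SS (x : Eu d) : ⟪dg σ x, dg σ x⟫ = Rr σ x := by
  unfold Rr
  rw [inner_dg]
  congr 1
  funext i
  ring

lemma sigma_cases (i : Fin d) : σ i = 0 ∨ σ i = 1 ∨ σ i = -1 := by
  have h : σ i * ((σ i - 1) * (σ i + 1)) = 0 := by linear_combination h3 i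
  rcases mul_eq_zero.1 h with h | h
  · exact Or.inl h
  · rcases mul_eq_zero.1 h with h | h
    · exact Or.inr (Or.inl (by linarith))
    · exact Or.inr (Or.inr (by linarith))

lemma Rr_le (x : Eu d) : Rr σ x ≤ ‖x‖ ^ 2 := by
  rw [← real_inner_self_eq_norm_sq, inner_eq]
  unfold Rr qf
  refine Finset.sum_le_sum fun i _ => ?_
  rcases sigma_cases h3 i with h | h | h <;> simp only [h] <;> nlinarith [sq_nonneg (x i)]

lemma cc_abs_le (x : Eu d) : |cc σ x| ≤ 1 := by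
  have h1 : qf σ x ≤ Rr σ x := by
    refine Finset.sum_le_sum fun i _ => ?_
    rcases sigma_cases h3 i with h | h | h <;> simp only [h] <;> nlinarith [sq_nonneg (x i)]
  have h2 : -Rr σ x ≤ qf σ x := by
    unfold Rr qf
    rw [← Finset.sum_neg_distrib]
    refine Finset.sum_le_sum fun i _ => ?_
    rcases sigma_cases h3 i with h | h | h <;> simp only [h] <;> nlinarith [sq_nonneg (x i)]
  unfold cc
  rw [abs_div, abs_of_nonneg (Rr_nonneg σ x)]
  exact div_le_one_of_le₀ (abs_le.2 ⟨h2, h1⟩) (Rr_nonneg σ x)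

lemma mem_Ug {x : Eu d} {i j : Fin d} (hi : σ i = 1) (hj : σ j = -1) (hxi : x i ≠ 0)
    (hxj : x j ≠ 0) : x ∈ Ug σ := by
  constructor
  · unfold Rr qf
    rw [← Finset.sum_neg_distrib]
    refine Finset.sum_lt_sum (fun l _ => ?_) ⟨i, Finset.mem_univ _, ?_⟩
    · rcases sigma_cases h3 l with h | h | h <;> simp only [h] <;> nlinarith [sq_nonneg (x l)]
    · simp only [hi]
      have : 0 < x i ^ 2 := by positivity
      linarith
  · refine Finset.sum_lt_sum (fun l _ => ?_) ⟨j, Finset.mem_univ _, ?_⟩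
    · rcases sigma_cases h3 l with h | h | h <;> simp only [h] <;> nlinarith [sq_nonneg (x l)]
    · simp only [hj]
      have : 0 < x j ^ 2 := by positivity
      linarith

lemma inner_grad_P {x : Eu d} (hx : x ∈ Ug σ) (a t t' : ℝ) :
    ⟪grad σ a t t' x, Pv σ x⟫ = Rr σ x ^ a * (2 * a * t) := by
  have hR := Ug_pos hx
  have e : Rr σ x ^ a = Rr σ x ^ (a - 1) * Rr σ x := by
    rw [Real.rpow_sub_one hR.ne']; field_simp
  simp only [grad, inner_add_left, inner_smul_left, conj_trivial, inner_PP h3,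
    real_inner_comm (Pv σ x) (dg σ x), inner_PS h3, e, cc_mul hx]
  ring

lemma inner_grad_S {x : Eu d} (hx : x ∈ Ug σ) (a t t' : ℝ) :
    ⟪grad σ a t t' x, dg σ x⟫ =
      Rr σ x ^ a * (2 * a * cc σ x * t + 2 * (1 - cc σ x ^ 2) * t') := by
  have hR := Ug_pos hx
  have e : Rr σ x ^ a = Rr σ x ^ (a - 1) * Rr σ x := by
    rw [Real.rpow_sub_one hR.ne']; field_simp
  simp only [grad, inner_add_left, inner_smul_left, conj_trivial, inner_SS,
    inner_PS h3, e, cc_mul hx]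
  ring

lemma norm_grad_sq {x : Eu d} (hx : x ∈ Ug σ) (k t t' : ℝ) :
    ‖grad σ (k / 2) t t' x‖ ^ 2 =
      Rr σ x ^ (k - 1) * (k ^ 2 * t ^ 2 + 4 * (1 - cc σ x ^ 2) * t' ^ 2) := by
  have hR := Ug_pos hx
  rw [← real_inner_self_eq_norm_sq]
  conv_lhs => congr; rfl; unfold grad
  rw [inner_smul_right, inner_add_right, inner_smul_right, inner_smul_right, inner_grad_P h3 hx,
    inner_grad_S h3 hx]
  have e : Rr σ x ^ (k - 1) = Rr σ x ^ (k / 2 - 1) * Rr σ x ^ (k / 2) := by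
    rw [← Real.rpow_add hR]; congr 1; ring
  rw [e]
  ring

lemma norm_grad_le {k t t' C r : ℝ} (hk : 2 ≤ k) (ht : |t| ≤ C) (ht' : |t'| ≤ C) {x : Eu d}
    (hx : ‖x‖ ≤ r) : ‖grad σ (k / 2) t t' x‖ ≤ (r ^ 2) ^ (k / 2 - 1) * ((k + 4) * C * r) := by
  have hr : 0 ≤ r := le_trans (norm_nonneg _) hx
  have hC : 0 ≤ C := le_trans (abs_nonneg _) ht
  have hR : Rr σ x ≤ r ^ 2 := (Rr_le h3 x).trans (by gcongr)
  have hP : ‖Pv σ x‖ ≤ r := by
    refine abs_le_of_sq_le_sq' ?_ hr |>.2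
    rw [← real_inner_self_eq_norm_sq, inner_PP h3]; exact hR
  have hS : ‖dg σ x‖ ≤ r := by
    refine abs_le_of_sq_le_sq' ?_ hr |>.2
    rw [← real_inner_self_eq_norm_sq, inner_SS]; exact hR
  have hc := cc_abs_le h3 x
  unfold grad
  rw [norm_smul, Real.norm_eq_abs, abs_of_nonneg (Real.rpow_nonneg (Rr_nonneg σ x) _)]
  refine mul_le_mul (Real.rpow_le_rpow (Rr_nonneg σ x) hR (by linarith)) ?_ (norm_nonneg _)
    (by positivity)
  refine (norm_add_le _ _).trans ?_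
  rw [norm_smul, norm_smul, Real.norm_eq_abs, Real.norm_eq_abs]
  have a1 : |2 * (k / 2) * t - 2 * cc σ x * t'| ≤ (k + 2) * C := by
    refine (abs_sub _ _).trans ?_
    rw [show 2 * (k / 2) * t = k * t by ring, abs_mul, abs_mul, abs_mul, abs_two,
      abs_of_nonneg (by linarith : 0 ≤ k)]
    have b1 : k * |t| ≤ k * C := by gcongr
    have b2 : |cc σ x| * |t'| ≤ 1 * C := by gcongr
    nlinarith
  have a2 : |2 * t'| ≤ 2 * C := by rw [abs_mul, abs_two]; linarith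
  have a3 : |2 * (k / 2) * t - 2 * cc σ x * t'| * ‖Pv σ x‖ ≤ (k + 2) * C * r := by gcongr
  have a4 : |2 * t'| * ‖dg σ x‖ ≤ 2 * C * r := by gcongr
  linarith

end three

end sigma

end Pool.Agent.H27Z.PH
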