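import Mathlib
import Pool.Agent.H27Z.PH.Field

set_option autoImplicit false

namespace Pool.Agent.H27Z.PH

open Set Filter Topology MeasureTheory Metric
open scoped RealInnerProductSpace

variable {d : ℕ}

lemma aesm_of_contOn {F : Type*} [NormedAddCommGroup F] [SecondCountableTopology F]
    {U : Set (Eu d)} (hU : IsOpen U) (hae : ∀ᵐ x, x ∈ U) {f : Eu d → F}
    (hf : ContinuousOn f U) : AEStronglyMeasurable f := by
  have h := hf.aestronglyMeasurable (μ := volume) hU.measurableSet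
  rwa [Measure.restrict_eq_self_of_ae_mem hae] at h

lemma remove_two {F : Eu d → Eu d} {D : Eu d → ℝ}
    (hFm : AEStronglyMeasurable F) (hDm : AEStronglyMeasurable D)
    (hFb : ∀ r : ℝ, ∃ C : ℝ, ∀ x, ‖x‖ ≤ r → ‖F x‖ ≤ C)
    (hDb : ∀ r : ℝ, ∃ C : ℝ, ∀ x, ‖x‖ ≤ r → |D x| ≤ C)
    {σ : Fin d → ℝ} (h3 : ∀ i, σ i ^ 3 = σ i) {i0 i1 j0 j1 : Fin d} (hi : i0 ≠ i1) (hj : j0 ≠ j1)
    (hi0 : σ i0 = 1) (hi1 : σ i1 = 1) (hj0 : σ j0 = -1) (hj1 : σ j1 = -1)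
    (H : ∀ ψ : Eu d → ℝ, ContDiff ℝ 1 ψ → HasCompactSupport ψ → tsupport ψ ⊆ Ug σ →
      ∫ x, (fderiv ℝ ψ x (F x) + ψ x * D x) = 0)
    (φ : Eu d → ℝ) (hφ : ContDiff ℝ 1 φ) (hφc : HasCompactSupport φ) :
    ∫ x, (fderiv ℝ φ x (F x) + φ x * D x) = 0 := by
  refine remove hFm hDm hFb hDb hj (U := univ) (fun ψ h1 h2 h3' => ?_) φ hφ hφc (subset_univ _)
  refine remove hFm hDm hFb hDb hi (U := univ ∩ {x | x j0 ^ 2 + x j1 ^ 2 ≠ 0})
    (fun ψ' k1 k2 k3 => H ψ' k1 k2 (k3.trans ?_)) ψ h1 h2 h3'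
  rintro x ⟨⟨-, hx1⟩, hx2⟩
  have a1 : x i0 ≠ 0 ∨ x i1 ≠ 0 := by
    by_contra h
    push Not at h
    exact hx2 (by rw [h.1, h.2]; norm_num)
  have a2 : x j0 ≠ 0 ∨ x j1 ≠ 0 := by
    by_contra h
    push Not at h
    exact hx1 (by rw [h.1, h.2]; norm_num)
  rcases a1 with a1 | a1 <;> rcases a2 with a2 | a2
  · exact mem_Ug h3 hi0 hj0 a1 a2
  · exact mem_Ug h3 hi0 hj1 a1 a2
  · exact mem_Ug h3 hi1 hj0 a1 a2
  · exact mem_Ug h3 hi1 hj1 a1 a2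

theorem core {n p : ℝ} (hn : 4 ≤ n) (hp : 1 < p) (hp2 : p < 2)
    (hcond : (2 - p) * (3 * p + 2) < (n - 1) * p - 2)
    {σ : Fin d → ℝ} (h3 : ∀ i, σ i ^ 3 = σ i) (hs0 : ∑ i, σ i = 0) (hs2 : ∑ i, σ i ^ 2 = n)
    {i0 i1 j0 j1 : Fin d} (hi : i0 ≠ i1) (hj : j0 ≠ j1)
    (hi0 : σ i0 = 1) (hi1 : σ i1 = 1) (hj0 : σ j0 = -1) (hj1 : σ j1 = -1) :
    ∃ k : ℝ, 2 ≤ k ∧ k < 1 + 2 / p ∧ ∃ (h : Eu d → ℝ) (G : Eu d → Eu d) (U : Set (Eu d)),
      IsOpen U ∧ (∀ᵐ x, x ∈ U) ∧ (∀ t : ℝ, 0 < t → ∀ x ∈ U, t • x ∈ U) ∧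
      ContinuousOn h U ∧ ContinuousOn G U ∧ (∀ x ∈ U, G x ≠ 0) ∧
      (∀ t : ℝ, 0 < t → ∀ x, G (t • x) = t ^ (k - 1) • G x) ∧
      (∀ r : ℝ, ∃ C : ℝ, ∀ x, ‖x‖ ≤ r → |h x| ≤ C) ∧
      (∀ r : ℝ, ∃ C : ℝ, ∀ x, ‖x‖ ≤ r → ‖G x‖ ≤ C) ∧
      (∀ φ : Eu d → ℝ, ContDiff ℝ 1 φ → HasCompactSupport φ → ∀ v : Eu d,
        ∫ x, (fderiv ℝ φ x (h x • v) + φ x * ⟪G x, v⟫) = 0) ∧
      (∀ φ : Eu d → ℝ, ContDiff ℝ 1 φ → HasCompactSupport φ →
        ∫ x, fderiv ℝ φ x (‖G x‖ ^ (p - 2) • G x) = 0) := by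
  obtain ⟨k, hk2, hk, g, g1, T1, T2, T1', T2', C, hC, hI, hg1c, hT1c, hT2c⟩ :=
    profile hn hp hp2 hcond
  have hgc : ContinuousOn g (Ioo (-1) 1) :=
    fun c hc => (hI c hc).1.continuousAt.continuousWithinAt
  have hT1 : ContinuousOn T1 (Ioo (-1) 1) :=
    fun c hc => (hI c hc).2.2.1.continuousAt.continuousWithinAt
  have hT2 : ContinuousOn T2 (Ioo (-1) 1) :=
    fun c hc => (hI c hc).2.2.2.1.continuousAt.continuousWithinAt
  obtain ⟨h, hh⟩ : ∃ h : Eu d → ℝ, h = fun y => Rr σ y ^ (k / 2) * g (cc σ y) := ⟨_, rfl⟩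
  obtain ⟨G, hG⟩ : ∃ G : Eu d → Eu d,
      G = fun x => grad σ (k / 2) (g (cc σ x)) (g1 (cc σ x)) x := ⟨_, rfl⟩
  have hUo := Ug_open σ
  have hae : ∀ᵐ x, x ∈ Ug σ := by
    filter_upwards [ae_coord_ne i0, ae_coord_ne j0] with x h1 h2 using mem_Ug h3 hi0 hj0 h1 h2
  have hhd : ∀ x ∈ Ug σ, HasFDerivAt h (innerSL ℝ (G x)) x := by
    intro x hx
    rw [hh, hG]
    exact hasFDerivAt_comp hx (k / 2) (hI _ (Ug_cc hx)).1
  have hhc : ContinuousOn h (Ug σ) := fun x hx => (hhd x hx).continuousAt.continuousWithinAt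
  have hGc : ContinuousOn G (Ug σ) := by rw [hG]; exact grad_continuousOn _ hgc hg1c
  have hρpos : ∀ x ∈ Ug σ, 0 < k ^ 2 * g (cc σ x) ^ 2 +
      4 * (1 - cc σ x ^ 2) * g1 (cc σ x) ^ 2 := by
    intro x hx
    have h1 := u_pos (Ug_cc hx)
    have h2 := (hI _ (Ug_cc hx)).2.1
    positivity
  have hGn : ∀ x ∈ Ug σ, ‖G x‖ ^ 2 = Rr σ x ^ (k - 1) *
      (k ^ 2 * g (cc σ x) ^ 2 + 4 * (1 - cc σ x ^ 2) * g1 (cc σ x) ^ 2) := by
    intro x hx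
    rw [hG]
    exact norm_grad_sq h3 hx _ _ _
  have hGne : ∀ x ∈ Ug σ, G x ≠ 0 := by
    intro x hx h0
    have h1 := hGn x hx
    rw [h0, norm_zero] at h1
    have h2 := mul_pos (Real.rpow_pos_of_pos (Ug_pos hx) (k - 1)) (hρpos x hx)
    rw [← h1] at h2
    norm_num at h2
  have hhb : ∀ r : ℝ, ∃ C : ℝ, ∀ x, ‖x‖ ≤ r → |h x| ≤ C := by
    intro r
    refine ⟨(r ^ 2) ^ (k / 2) * C, fun x hx => ?_⟩
    have hR : Rr σ x ≤ r ^ 2 := (Rr_le h3 x).trans (by gcongr)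
    rw [hh, abs_mul, abs_of_nonneg (Real.rpow_nonneg (Rr_nonneg σ x) _)]
    exact mul_le_mul (Real.rpow_le_rpow (Rr_nonneg σ x) hR (by linarith)) (hC _).1 (abs_nonneg _)
      (by positivity)
  have hGb : ∀ r : ℝ, ∃ C : ℝ, ∀ x, ‖x‖ ≤ r → ‖G x‖ ≤ C := by
    intro r
    refine ⟨(r ^ 2) ^ (k / 2 - 1) * ((k + 4) * C * r), fun x hx => ?_⟩
    rw [hG]
    exact norm_grad_le h3 hk2 (hC _).1 (hC _).2 hx
  have hhm := aesm_of_contOn hUo hae hhc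
  have hGm := aesm_of_contOn hUo hae hGc
  refine ⟨k, hk2, hk, h, G, Ug σ, hUo, hae, fun t ht x hx => Ug_smul ht.ne' hx, hhc, hGc, hGne,
    fun t ht x => ?_, hhb, hGb, fun φ hφ hφc v => ?_, fun φ hφ hφc => ?_⟩
  · rw [hG]
    simp only [cc_smul ht.ne']
    rw [grad_smul _ _ _ ht]
    congr 2
    ring
  · refine remove_two (F := fun x => h x • v) (D := fun x => ⟪G x, v⟫) (hhm.smul_const v)
      (hGm.inner aestronglyMeasurable_const) (fun r => ?_) (fun r => ?_) h3 hi hj hi0 hi1 hj0 hj1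
      (fun ψ k1 k2 k3 => (ibp_const hUo hhd hGc k1 k2 k3 v).2) φ hφ hφc
    · obtain ⟨C1, hC1⟩ := hhb r
      exact ⟨C1 * ‖v‖, fun x hx => by
        rw [norm_smul, Real.norm_eq_abs]
        exact mul_le_mul_of_nonneg_right (hC1 x hx) (norm_nonneg _)⟩
    · obtain ⟨C1, hC1⟩ := hGb r
      exact ⟨C1 * ‖v‖, fun x hx => (abs_real_inner_le_norm _ _).trans
        (mul_le_mul_of_nonneg_right (hC1 x hx) (norm_nonneg _))⟩
  · have hFc : ContinuousOn (fun x => ‖G x‖ ^ (p - 2) • G x) (Ug σ) :=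
      (hGc.norm.rpow_const fun x hx => Or.inl (norm_ne_zero_iff.2 (hGne x hx))).smul hGc
    have key := remove_two (F := fun x => ‖G x‖ ^ (p - 2) • G x) (D := fun _ => 0)
      (aesm_of_contOn hUo hae hFc) aestronglyMeasurable_const (fun r => ?_)
      (fun r => ⟨0, fun x _ => by simp⟩) h3 hi hj hi0 hi1 hj0 hj1 (fun ψ k1 k2 k3 => ?_) φ hφ hφc
    · simpa using key
    · obtain ⟨C1, hC1⟩ := hGb r
      refine ⟨C1 ^ (p - 1), fun x hx => ?_⟩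
      rw [norm_smul, Real.norm_eq_abs, abs_of_nonneg (Real.rpow_nonneg (norm_nonneg _) _),
        ← Real.rpow_add_one' (norm_nonneg _) (by linarith), show p - 2 + 1 = p - 1 by ring]
      exact Real.rpow_le_rpow (norm_nonneg _) (hC1 x hx) (by linarith)
    · obtain ⟨b, hb⟩ : ∃ b : ℝ, b = ((k - 1) * (p - 1) - 1) / 2 := ⟨_, rfl⟩
      have z1 := ibp_diag hUo (f := fun y => Rr σ y ^ b * T1 (cc σ y))
        (γ := fun x => grad σ b (T1 (cc σ x)) (T1' (cc σ x)) x)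
        (fun x hx => hasFDerivAt_comp hx b (hI _ (Ug_cc hx)).2.2.1)
        (grad_continuousOn b hT1 hT1c) k1 k2 k3 (fun i => σ i ^ 2)
      have z2 := ibp_diag hUo (f := fun y => Rr σ y ^ b * T2 (cc σ y))
        (γ := fun x => grad σ b (T2 (cc σ x)) (T2' (cc σ x)) x)
        (fun x hx => hasFDerivAt_comp hx b (hI _ (Ug_cc hx)).2.2.2.1)
        (grad_continuousOn b hT2 hT2c) k1 k2 k3 σ
      refine Eq.trans ?_ (z1.add z2).2
      congr 1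
      funext x
      beta_reduce
      by_cases hx : x ∈ Ug σ
      · obtain ⟨-, -, -, -, e1, e2, e3⟩ := hI _ (Ug_cc hx)
        have hR := Ug_pos hx
        have eF : ‖G x‖ ^ (p - 2) • G x = (Rr σ x ^ b * T1 (cc σ x)) • Pv σ x +
            (Rr σ x ^ b * T2 (cc σ x)) • dg σ x := by
          have a1 : ‖G x‖ ^ (p - 2) = (‖G x‖ ^ 2) ^ ((p - 2) / 2) := by
            rw [← Real.rpow_natCast, ← Real.rpow_mul (norm_nonneg _)]
            congr 1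
            push_cast
            ring
          have a2 : Rr σ x ^ b = (Rr σ x ^ (k - 1)) ^ ((p - 2) / 2) * Rr σ x ^ (k / 2 - 1) := by
            rw [← Real.rpow_mul hR.le, ← Real.rpow_add hR, hb]
            congr 1
            ring
          rw [a1, hGn x hx, Real.mul_rpow (Real.rpow_nonneg hR.le _) (hρpos x hx).le, e1, e2, a2,
            hG]
          simp only [grad]
          module
        have eP := inner_grad_P h3 hx b (T1 (cc σ x)) (T1' (cc σ x))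
        have eS := inner_grad_S h3 hx b (T2 (cc σ x)) (T2' (cc σ x))
        unfold Pv at eF eP
        rw [eF, map_add, eP, eS, hs0, hs2]
        have e4 : 2 * b = (k - 1) * (p - 1) - 1 := by rw [hb]; ring
        rw [← e4] at e3
        linear_combination (-(ψ x * Rr σ x ^ b)) * e3
      · have hx' : x ∉ tsupport ψ := fun h => hx (k3 h)
        simp [image_eq_zero_of_notMem_tsupport hx', fderiv_of_notMem_tsupport ℝ hx']

end Pool.Agent.H27Z.PH
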