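import Mathlib
import Pool.Agent.H27Z.PH.Core

set_option autoImplicit false

namespace Pool.Agent.H27Z.PH

open Set Filter Topology MeasureTheory Metric
open scoped RealInnerProductSpace Pointwise

variable {d : ℕ}

lemma not_linear_bound {a C β : ℝ} (ha : 0 < a) (hβ : β < 1) :
    ¬ ∀ᶠ t in 𝓝[>] (0 : ℝ), t ^ β * a ≤ C * t := by
  intro h
  have h1 := (tendsto_rpow_neg_nhdsGT_zero (y := β - 1) (by linarith)).eventually_gt_atTop (C / a)
  obtain ⟨t, ⟨ht1, ht2⟩, ht⟩ := ((h.and h1).and self_mem_nhdsWithin).exists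
  have ht : 0 < t := ht
  rw [Real.rpow_sub_one ht.ne', div_lt_div_iff₀ ha ht] at ht2
  linarith

lemma avg_scale {F : Type*} [NormedAddCommGroup F] [NormedSpace ℝ F] (g : Eu d → F) {θ : ℝ}
    (hθ : 0 < θ) (r : ℝ) :
    ⨍ x in ball (0 : Eu d) (θ * r), g x = ⨍ x in ball (0 : Eu d) r, g (θ • x) := by
  rw [setAverage_eq, setAverage_eq, Measure.setIntegral_comp_smul_of_pos volume g _ hθ,
    _root_.smul_ball hθ.ne', smul_zero, Real.norm_eq_abs, abs_of_pos hθ, smul_smul]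
  congr 1
  rw [Measure.real, Measure.real, Measure.addHaar_ball_mul_of_pos volume _ hθ, ENNReal.toReal_mul,
    ENNReal.toReal_ofReal (by positivity), mul_inv, mul_comm]

section homog

variable {F : Type*} [NormedAddCommGroup F] [NormedSpace ℝ F] {f : Eu d → F} {U : Set (Eu d)}
  {β : ℝ}

lemma no_C1 (hU : IsOpen U) (hae : ∀ᵐ x, x ∈ U) (hcone : ∀ t : ℝ, 0 < t → ∀ x ∈ U, t • x ∈ U)
    (hfc : ContinuousOn f U) (hne : ∀ x ∈ U, f x ≠ 0) (hβ0 : 0 < β) (hβ : β < 1)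
    (hom : ∀ t : ℝ, 0 < t → ∀ x, f (t • x) = t ^ β • f x)
    {Ω : Set (Eu d)} (hΩ : IsOpen Ω) (h0 : (0 : Eu d) ∈ Ω) :
    ¬ ∃ W : Eu d → F, ContDiffOn ℝ 1 W Ω ∧ W =ᵐ[volume.restrict Ω] f := by
  rintro ⟨W, hW, hWf⟩
  obtain ⟨x0, hx0⟩ := hae.exists
  have heq : EqOn W f (Ω ∩ U) :=
    Measure.eqOn_open_of_ae_eq (ae_restrict_of_ae_restrict_of_subset inter_subset_left hWf)
      (hΩ.inter hU) (hW.continuousOn.mono inter_subset_left) (hfc.mono inter_subset_right)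
  have hl : Tendsto (fun t : ℝ => t • x0) (𝓝[>] 0) (𝓝 0) := by
    have : Continuous (fun t : ℝ => t • x0) := by fun_prop
    simpa using (this.tendsto 0).mono_left nhdsWithin_le_nhds
  have hev : ∀ᶠ t : ℝ in 𝓝[>] 0, W (t • x0) = t ^ β • f x0 := by
    filter_upwards [hl.eventually (hΩ.mem_nhds h0), self_mem_nhdsWithin] with t ht ht0
    rw [heq ⟨ht, hcone t ht0 x0 hx0⟩, hom t ht0]
  have hd : DifferentiableAt ℝ W 0 := (hW.contDiffAt (hΩ.mem_nhds h0)).differentiableAt one_ne_zero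
  have hW0 : W 0 = 0 := by
    have h1 : Tendsto (fun t : ℝ => W (t • x0)) (𝓝[>] 0) (𝓝 (W 0)) :=
      hd.continuousAt.tendsto.comp hl
    have h2 : Tendsto (fun t : ℝ => t ^ β • f x0) (𝓝[>] 0) (𝓝 0) := by
      have h3 : Tendsto (fun t : ℝ => t ^ β) (𝓝[>] 0) (𝓝 0) := by
        have := (Real.continuousAt_rpow_const 0 β (Or.inr hβ0.le)).tendsto
        rw [Real.zero_rpow hβ0.ne'] at this
        exact this.mono_left nhdsWithin_le_nhds
      simpa using h3.smul_const (f x0)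
    exact tendsto_nhds_unique (h1.congr' hev) h2
  obtain ⟨C, hC⟩ := hd.hasFDerivAt.isBigO_sub.bound
  refine not_linear_bound (C := C * ‖x0‖) (norm_pos_iff.2 (hne x0 hx0)) hβ ?_
  filter_upwards [hl.eventually hC, hev, self_mem_nhdsWithin] with t h1 h2 ht
  have ht : 0 < t := ht
  rw [hW0, sub_zero, sub_zero, h2, norm_smul, norm_smul, Real.norm_eq_abs, Real.norm_eq_abs,
    abs_of_pos ht, abs_of_pos (Real.rpow_pos_of_pos ht _)] at h1
  linarith

lemma no_decay [CompleteSpace F] [SecondCountableTopology F]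
    (hU : IsOpen U) (hae : ∀ᵐ x, x ∈ U) (hcone : ∀ t : ℝ, 0 < t → ∀ x ∈ U, t • x ∈ U)
    (hfc : ContinuousOn f U) (hne : ∀ x ∈ U, f x ≠ 0) (hβ0 : 0 < β) (hβ : β < 1)
    (hom : ∀ t : ℝ, 0 < t → ∀ x, f (t • x) = t ^ β • f x)
    (hb : ∀ r : ℝ, ∃ C : ℝ, ∀ x, ‖x‖ ≤ r → ‖f x‖ ≤ C) {r : ℝ} (hr : 0 < r) :
    ¬ ∃ c : ℝ, ∀ θ ∈ Ioc (0 : ℝ) 1,
      √(⨍ x in ball (0 : Eu d) (θ * r), ‖f x - ⨍ y in ball (0 : Eu d) (θ * r), f y‖ ^ 2) ≤
        c * θ * √(⨍ x in ball (0 : Eu d) r, ‖f x - ⨍ y in ball (0 : Eu d) r, f y‖ ^ 2) := by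
  rintro ⟨c, hc⟩
  obtain ⟨m, hm⟩ : ∃ m : F, m = ⨍ y in ball (0 : Eu d) r, f y := ⟨_, rfl⟩
  obtain ⟨A, hA⟩ : ∃ A : ℝ, A = ⨍ x in ball (0 : Eu d) r, ‖f x - m‖ ^ 2 := ⟨_, rfl⟩
  have hsc : ∀ θ : ℝ, 0 < θ →
      √(⨍ x in ball (0 : Eu d) (θ * r), ‖f x - ⨍ y in ball (0 : Eu d) (θ * r), f y‖ ^ 2) =
        θ ^ β * √A := by
    intro θ hθ
    have hp := Real.rpow_pos_of_pos hθ β
    have e1 : ⨍ y in ball (0 : Eu d) (θ * r), f y = θ ^ β • m := by
      rw [avg_scale f hθ, hm]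
      simp only [hom θ hθ]
      rw [setAverage_eq, setAverage_eq, integral_smul, smul_comm]
    rw [e1, avg_scale _ hθ]
    have e2 : ∀ x, ‖f (θ • x) - θ ^ β • m‖ ^ 2 = (θ ^ β) ^ 2 * ‖f x - m‖ ^ 2 := by
      intro x
      rw [hom θ hθ, ← smul_sub, norm_smul, Real.norm_eq_abs, abs_of_pos hp, mul_pow]
    simp only [e2]
    rw [hA, setAverage_eq, setAverage_eq, integral_const_mul, smul_eq_mul, smul_eq_mul,
      mul_left_comm, Real.sqrt_mul (by positivity), Real.sqrt_sq hp.le]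
  have hApos : 0 < A := by
    have hvol : 0 < (volume : Measure (Eu d)).real (ball 0 r) :=
      ENNReal.toReal_pos (measure_ball_pos _ _ hr).ne' measure_ball_lt_top.ne
    rw [hA, setAverage_eq, smul_eq_mul]
    refine mul_pos (inv_pos.2 hvol) ?_
    obtain ⟨C, hC⟩ := hb r
    have hfm := aesm_of_contOn hU hae hfc
    have hint : IntegrableOn (fun x => ‖f x - m‖ ^ 2) (ball (0 : Eu d) r) := by
      refine Measure.integrableOn_of_bounded (M := (C + ‖m‖) ^ 2) measure_ball_lt_top.ne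
        ((hfm.sub aestronglyMeasurable_const).norm.pow 2) ?_
      filter_upwards [ae_restrict_mem measurableSet_ball] with x hx
      have h1 := hC x (mem_ball_zero_iff.1 hx).le
      have h2 := norm_sub_le (f x) m
      rw [Real.norm_eq_abs, abs_of_nonneg (by positivity)]
      gcongr
      linarith
    refine lt_of_le_of_ne (integral_nonneg fun x => by positivity) fun h => ?_
    have h1 := (integral_eq_zero_iff_of_nonneg (fun x => by positivity) hint).1 h.symm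
    have h2 : f =ᵐ[volume.restrict (ball (0 : Eu d) r ∩ U)] fun _ => m := by
      filter_upwards [ae_restrict_of_ae_restrict_of_subset inter_subset_left h1] with x hx
      simpa [sub_eq_zero] using hx
    have heq : EqOn f (fun _ => m) (ball (0 : Eu d) r ∩ U) :=
      Measure.eqOn_open_of_ae_eq h2 (isOpen_ball.inter hU) (hfc.mono inter_subset_right)
        continuousOn_const
    obtain ⟨x0, hx0U, hx0⟩ : ∃ x0 ∈ U, x0 ∈ ball (0 : Eu d) r := by
      have h3 : ∀ᵐ x ∂(volume.restrict (ball (0 : Eu d) r)), x ∈ U ∧ x ∈ ball (0 : Eu d) r :=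
        (ae_restrict_of_ae hae).and (ae_restrict_mem measurableSet_ball)
      have : (ae (volume.restrict (ball (0 : Eu d) r))).NeBot := by
        rw [ae_neBot, Ne, Measure.restrict_eq_zero]
        exact (measure_ball_pos _ _ hr).ne'
      exact h3.exists
    have h4 : (1 / 2 : ℝ) • x0 ∈ ball (0 : Eu d) r := by
      rw [mem_ball_zero_iff] at hx0 ⊢
      rw [norm_smul, Real.norm_eq_abs, abs_of_pos (by norm_num)]
      linarith [norm_nonneg x0]
    have h5 := heq ⟨h4, hcone _ (by norm_num) _ hx0U⟩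
    have h6 := heq ⟨hx0, hx0U⟩
    simp only at h5 h6
    rw [hom _ (by norm_num), ← h6] at h5
    have h7 : (1 / 2 : ℝ) ^ β < 1 := Real.rpow_lt_one (by norm_num) (by norm_num) hβ0
    have h8 : (1 - (1 / 2 : ℝ) ^ β) • f x0 = 0 := by rw [sub_smul, h5, one_smul, sub_self]
    rcases smul_eq_zero.1 h8 with h9 | h9
    · linarith
    · exact hne x0 hx0U h9
  refine not_linear_bound (C := c * √A) (Real.sqrt_pos.2 hApos) hβ ?_
  filter_upwards [Ioc_mem_nhdsGT one_pos] with θ hθ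
  have h1 := hc θ hθ
  rw [hsc θ hθ.1, ← hm, ← hA] at h1
  linarith

end homog

lemma exists_sigma {m : ℕ} (hm : 2 ≤ m) (hd : 2 * m ≤ d) :
    ∃ σ : Fin d → ℝ, (∀ i, σ i ^ 3 = σ i) ∧ ∑ i, σ i = 0 ∧ ∑ i, σ i ^ 2 = 2 * m ∧
      ∃ i0 i1 j0 j1 : Fin d, i0 ≠ i1 ∧ j0 ≠ j1 ∧ σ i0 = 1 ∧ σ i1 = 1 ∧ σ j0 = -1 ∧ σ j1 = -1 := by
  obtain ⟨t, rfl⟩ : ∃ t, d = m + m + t := ⟨d - 2 * m, by omega⟩
  let s : ℕ → ℝ := fun i => if i < m then 1 else if i < m + m then -1 else 0
  have hsum : ∀ u : ℝ → ℝ, u 0 = 0 →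
      ∑ i : Fin (m + m + t), u (s i) = m * u 1 + m * u (-1) := by
    intro u hu
    rw [Fin.sum_univ_eq_sum_range (fun i => u (s i)), Finset.sum_range_add, Finset.sum_range_add]
    have a1 : ∑ i ∈ Finset.range m, u (s i) = m * u 1 := by
      rw [Finset.sum_congr rfl (g := fun _ => u 1)]
      · simp
      · intro i hi
        simp [s, Finset.mem_range.1 hi]
    have a2 : ∑ i ∈ Finset.range m, u (s (m + i)) = m * u (-1) := by
      rw [Finset.sum_congr rfl (g := fun _ => u (-1))]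
      · simp
      · intro i hi
        simp [s, Finset.mem_range.1 hi]
    have a3 : ∑ i ∈ Finset.range t, u (s (m + m + i)) = 0 := by
      refine Finset.sum_eq_zero fun i _ => ?_
      have h1 : ¬ (m + m + i < m) := by omega
      have h2 : ¬ (m + m + i < m + m) := by omega
      simp only [s, if_neg h1, if_neg h2, hu]
    rw [a1, a2, a3, add_zero]
  refine ⟨fun i => s i, fun i => ?_, ?_, ?_, ⟨0, by omega⟩, ⟨1, by omega⟩, ⟨m, by omega⟩,
    ⟨m + 1, by omega⟩, by simp, by simp, ?_, ?_, ?_, ?_⟩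
  · simp only [s]
    split_ifs <;> norm_num
  · rw [hsum (fun x => x) rfl]; ring
  · rw [hsum (fun x => x ^ 2) (by norm_num)]; ring
  · have : 0 < m := by omega
    simp [s, this]
  · have : 1 < m := by omega
    simp [s, this]
  · have : 0 < m := by omega
    simp [s, this]
  · have : 1 < m := by omega
    simp [s, this]

end Pool.Agent.H27Z.PH
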