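import Mathlib

set_option autoImplicit false

namespace Pool.Agent.H27Z.PHDefs

open MeasureTheory
open scoped ContDiff RealInnerProductSpace

/-- Euclidean space of dimension `d`. -/
abbrev E (d : ℕ) := EuclideanSpace ℝ (Fin d)

/-- Real `n × d` matrices with the Frobenius norm and inner product. -/
abbrev Mat (n d : ℕ) := EuclideanSpace ℝ (Fin n × Fin d)

/-- `A(ξ) = |ξ|^(p-2) ξ`. -/
noncomputable def A {n d : ℕ} (p : ℝ) (ξ : Mat n d) : Mat n d := ‖ξ‖ ^ (p - 2) • ξ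

/-- `V(ξ) = |ξ|^((p-2)/2) ξ`. -/
noncomputable def V {n d : ℕ} (p : ℝ) (ξ : Mat n d) : Mat n d := ‖ξ‖ ^ ((p - 2) / 2) • ξ

/-- The Jacobian matrix of `φ` at `x`: its entry `(i, j)` is the derivative of the `i`-th
component of `φ` in the `j`-th coordinate direction. -/
noncomputable def jac {d n : ℕ} (φ : E d → E n) (x : E d) : Mat n d :=
  WithLp.toLp 2 fun ij => fderiv ℝ φ x (EuclideanSpace.single ij.2 1) ij.1

/-- `φ` is smooth with compact support contained in `Ω`. -/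
def IsTest {d : ℕ} {F : Type} [NormedAddCommGroup F] [NormedSpace ℝ F] (Ω : Set (E d))
    (φ : E d → F) : Prop :=
  ContDiff ℝ ∞ φ ∧ HasCompactSupport φ ∧ tsupport φ ⊆ Ω

/-- `f` is in `L^p` of every compact subset of `Ω`. -/
def LocLp {d : ℕ} {F : Type} [NormedAddCommGroup F] (p : ℝ) (Ω : Set (E d)) (f : E d → F) : Prop :=
  ∀ K ⊆ Ω, IsCompact K → MemLp f (ENNReal.ofReal p) (volume.restrict K)

/-- `G` is the distributional gradient of `h` on `Ω`. -/
def IsWeakGrad {d n : ℕ} (Ω : Set (E d)) (h : E d → E n) (G : E d → Mat n d) : Prop :=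
  ∀ φ : E d → ℝ, IsTest Ω φ → ∀ (i : Fin n) (j : Fin d),
    ∫ x in Ω, h x i * fderiv ℝ φ x (EuclideanSpace.single j 1) = - ∫ x in Ω, G x (i, j) * φ x

/-- `h` lies in `W^{1,p}_loc(Ω; ℝ^n)` with weak gradient `G`, and is `p`-harmonic on `Ω`. -/
def IsPHarmonic {d n : ℕ} (p : ℝ) (Ω : Set (E d)) (h : E d → E n) (G : E d → Mat n d) : Prop :=
  LocLp p Ω h ∧ LocLp p Ω G ∧ IsWeakGrad Ω h G ∧
    ∀ φ : E d → E n, IsTest Ω φ → ∫ x in Ω, ⟪A p (G x), jac φ x⟫ = 0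

/-- The `L²` mean oscillation of `f` over `B`. -/
noncomputable def excess {d n : ℕ} (f : E d → Mat n d) (B : Set (E d)) : ℝ :=
  √(⨍ x in B, ‖f x - ⨍ y in B, f y‖ ^ 2)

end Pool.Agent.H27Z.PHDefs
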