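import Mathlib
import Pool.Agent.H27Z.PH.Homog
import Pool.Agent.H27Z.PH.Defs

set_option autoImplicit false

namespace Pool.Agent.H27Z.PH

open Set Filter Topology MeasureTheory Metric
open scoped RealInnerProductSpace
open Pool.Agent.H27Z.PHDefs

variable {d n : ℕ}

/-- the matrix with `v` in row `i0` and zero in the other rows -/
noncomputable def emb (i0 : Fin n) (v : Eu d) : Mat n d :=
  WithLp.toLp 2 fun ij => if ij.1 = i0 then v ij.2 else 0

lemma emb_apply (i0 : Fin n) (v : Eu d) (i : Fin n) (j : Fin d) :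
    emb i0 v (i, j) = if i = i0 then v j else 0 := rfl

lemma emb_smul (i0 : Fin n) (t : ℝ) (v : Eu d) : emb i0 (t • v) = t • emb i0 v := by
  ext ⟨i, j⟩
  simp [emb_apply]

lemma emb_continuous (i0 : Fin n) : Continuous (emb i0 : Eu d → Mat n d) := by
  unfold emb
  refine (PiLp.continuous_toLp 2 _).comp (continuous_pi fun ij => ?_)
  split_ifs
  · fun_prop
  · fun_prop

lemma inner_emb (i0 : Fin n) (v : Eu d) (M : Mat n d) :
    ⟪emb i0 v, M⟫ = ∑ j, v j * M (i0, j) := by
  simp [PiLp.inner_apply, Fintype.sum_prod_type, emb_apply, mul_comm]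

lemma norm_emb (i0 : Fin n) (v : Eu d) : ‖emb i0 v‖ = ‖v‖ := by
  rw [← sq_eq_sq₀ (norm_nonneg _) (norm_nonneg _), ← real_inner_self_eq_norm_sq,
    ← real_inner_self_eq_norm_sq, inner_emb, inner_eq]
  simp [emb_apply]

lemma int_bdd {f ψ : Eu d → ℝ} (hf : AEStronglyMeasurable f)
    (hb : ∀ r : ℝ, ∃ C : ℝ, ∀ x, ‖x‖ ≤ r → |f x| ≤ C) (hψ : Continuous ψ)
    (hc : HasCompactSupport ψ) : Integrable (fun x => f x * ψ x) := by
  obtain ⟨r, hr⟩ := hc.isCompact.isBounded.subset_closedBall (0 : Eu d)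
  obtain ⟨C, hC⟩ := hb r
  refine ((hψ.abs.integrable_of_hasCompactSupport hc.abs).const_mul C).mono'
    (hf.mul hψ.aestronglyMeasurable) (Eventually.of_forall fun x => ?_)
  rw [Real.norm_eq_abs, abs_mul]
  by_cases hx : x ∈ tsupport ψ
  · exact mul_le_mul_of_nonneg_right (hC x (mem_closedBall_zero_iff.1 (hr hx))) (abs_nonneg _)
  · simp [image_eq_zero_of_notMem_tsupport hx]

lemma locLp_of_bdd {F : Type} [NormedAddCommGroup F] {f : Eu d → F} (hf : AEStronglyMeasurable f)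
    (hb : ∀ r : ℝ, ∃ C : ℝ, ∀ x, ‖x‖ ≤ r → ‖f x‖ ≤ C) (p : ℝ) (Ω : Set (Eu d)) :
    LocLp p Ω f := by
  intro K _ hK
  obtain ⟨r, hr⟩ := hK.isBounded.subset_closedBall (0 : Eu d)
  obtain ⟨C, hC⟩ := hb r
  have : IsFiniteMeasure (volume.restrict K : Measure (Eu d)) :=
    isFiniteMeasure_restrict.2 hK.measure_lt_top.ne
  refine MemLp.of_bound hf.restrict C ?_
  filter_upwards [ae_restrict_mem hK.measurableSet] with x hx
  exact hC x (mem_closedBall_zero_iff.1 (hr hx))

theorem final (d n m : ℕ) (p : ℝ) (hn : 1 ≤ n) (hm : 2 ≤ m) (hd : 2 * m ≤ d)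
    (hp : 1 < p) (hp2 : p < 2) (hcond : 6 < 3 * p ^ 2 + (2 * m - 5) * p) :
    ∃ (h : E d → E n) (G : E d → Mat n d), ∀ Ω : Set (E d), IsOpen Ω → 0 ∈ Ω →
      IsPHarmonic p Ω h G ∧
      (¬ ∃ W : E d → Mat n d, ContDiffOn ℝ 1 W Ω ∧
        W =ᵐ[volume.restrict Ω] fun x => V p (G x)) ∧
      ¬ ∃ c : ℝ, ∀ (x₀ : E d) (r : ℝ), 0 < r → ball x₀ r ⊆ Ω → ∀ θ ∈ Ioc (0 : ℝ) 1,
        excess (fun x => V p (G x)) (ball x₀ (θ * r)) ≤
          c * θ * excess (fun x => V p (G x)) (ball x₀ r) := by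
  obtain ⟨σ, h3, hs0, hs2, i0, i1, j0, j1, hi, hj, hi0, hi1, hj0, hj1⟩ := exists_sigma hm hd
  have hm' : (2 : ℝ) ≤ m := by exact_mod_cast hm
  obtain ⟨k, hk2, hk, h, G, U, hU, hae, hcone, hhc, hGc, hGne, hom, hhb, hGb, hw, hph⟩ :=
    core (n := 2 * m) (by linarith) hp hp2 (by nlinarith) h3 hs0 hs2 hi hj hi0 hi1 hj0 hj1
  have hhm := aesm_of_contOn hU hae hhc
  have hGm := aesm_of_contOn hU hae hGc
  let a : Fin n := ⟨0, hn⟩
  have hp0 : 0 < p := by linarith
  have hβ0 : 0 < (k - 1) * p / 2 := by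
    have : 0 < k - 1 := by linarith
    positivity
  have hβ1 : (k - 1) * p / 2 < 1 := by
    have h1 : k - 1 < 2 / p := by linarith
    rw [lt_div_iff₀ hp0] at h1
    linarith
  have hEc : ContinuousOn (fun x => emb a (G x)) U := (emb_continuous a).comp_continuousOn hGc
  have hVc : ContinuousOn (fun x => V p (emb a (G x))) U := by
    unfold V
    refine (hEc.norm.rpow_const fun x hx => Or.inl ?_).smul hEc
    rw [norm_emb]
    exact norm_ne_zero_iff.2 (hGne x hx)
  have hVn : ∀ x, ‖V p (emb a (G x))‖ = ‖G x‖ ^ (p / 2) := by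
    intro x
    unfold V
    rw [norm_smul, norm_emb, Real.norm_eq_abs, abs_of_nonneg (Real.rpow_nonneg (norm_nonneg _) _),
      ← Real.rpow_add_one' (norm_nonneg _) (by linarith)]
    congr 1
    ring
  have hVne : ∀ x ∈ U, V p (emb a (G x)) ≠ 0 := by
    intro x hx
    rw [← norm_pos_iff, hVn]
    exact Real.rpow_pos_of_pos (norm_pos_iff.2 (hGne x hx)) _
  have hVhom : ∀ t : ℝ, 0 < t → ∀ x,
      V p (emb a (G (t • x))) = t ^ ((k - 1) * p / 2) • V p (emb a (G x)) := by
    intro t ht x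
    have h1 := Real.rpow_pos_of_pos ht (k - 1)
    unfold V
    rw [hom t ht, emb_smul, norm_smul, Real.norm_eq_abs, abs_of_pos h1,
      Real.mul_rpow h1.le (norm_nonneg _), smul_smul, smul_smul, ← Real.rpow_mul ht.le]
    congr 1
    rw [mul_right_comm, ← Real.rpow_add ht]
    congr 2
    ring
  have hVb : ∀ r : ℝ, ∃ C : ℝ, ∀ x, ‖x‖ ≤ r → ‖V p (emb a (G x))‖ ≤ C := by
    intro r
    obtain ⟨C, hC⟩ := hGb r
    exact ⟨C ^ (p / 2), fun x hx => by
      rw [hVn]; exact Real.rpow_le_rpow (norm_nonneg _) (hC x hx) (by linarith)⟩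
  refine ⟨fun x => h x • EuclideanSpace.single a (1 : ℝ), fun x => emb a (G x), fun Ω hΩ h0 =>
    ⟨⟨?_, ?_, ?_, ?_⟩, no_C1 hU hae hcone hVc hVne hβ0 hβ1 hVhom hΩ h0, ?_⟩⟩
  · refine locLp_of_bdd (hhm.smul_const _) (fun r => ?_) p Ω
    obtain ⟨C, hC⟩ := hhb r
    exact ⟨C, fun x hx => by simpa [norm_smul] using hC x hx⟩
  · refine locLp_of_bdd (aesm_of_contOn hU hae hEc) (fun r => ?_) p Ω
    obtain ⟨C, hC⟩ := hGb r
    exact ⟨C, fun x hx => by rw [norm_emb]; exact hC x hx⟩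
  · rintro φ ⟨h1, h2, h3'⟩ i j
    have h1' : ContDiff ℝ 1 φ := h1.of_le (by simp)
    by_cases hia : i = a
    · subst hia
      rw [setIntegral_eq_integral_of_forall_compl_eq_zero,
        setIntegral_eq_integral_of_forall_compl_eq_zero]
      · have k1 : Integrable (fun x => h x * fderiv ℝ φ x (EuclideanSpace.single j 1)) :=
          int_bdd hhm hhb ((h1'.continuous_fderiv one_ne_zero).clm_apply continuous_const)
            (h2.fderiv_apply ℝ _)
        have k2 : Integrable (fun x => G x j * φ x) := by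
          refine int_bdd ((EuclideanSpace.proj j : Eu d →L[ℝ] ℝ).continuous.comp_aestronglyMeasurable
            hGm) (fun r => ?_) h1'.continuous h2
          obtain ⟨C, hC⟩ := hGb r
          exact ⟨C, fun x hx => (PiLp.norm_apply_le (G x) j).trans (hC x hx)⟩
        have k3 := hw φ h1' h2 (EuclideanSpace.single j 1)
        have e : (fun x => fderiv ℝ φ x (h x • EuclideanSpace.single j (1 : ℝ)) +
            φ x * ⟪G x, EuclideanSpace.single j (1 : ℝ)⟫) =
            fun x => h x * fderiv ℝ φ x (EuclideanSpace.single j 1) + G x j * φ x := by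
          funext x
          rw [map_smul, smul_eq_mul, EuclideanSpace.inner_single_right]
          simp [mul_comm]
        rw [e, integral_add k1 k2] at k3
        simp only [emb_apply, if_true, PiLp.smul_apply, PiLp.single_eq_same, smul_eq_mul, mul_one]
        linarith
      · intro x hx
        rw [image_eq_zero_of_notMem_tsupport fun hh => hx (h3' hh), mul_zero]
      · intro x hx
        rw [fderiv_of_notMem_tsupport ℝ fun hh => hx (h3' hh)]
        simp
    · simp [emb_apply, hia]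
  · rintro φ ⟨h1, h2, h3'⟩
    have h1' : ContDiff ℝ 1 φ := h1.of_le (by simp)
    let L : E n →L[ℝ] ℝ := EuclideanSpace.proj a
    have k1 : ContDiff ℝ 1 (L ∘ φ) := L.contDiff.comp h1'
    have k2 : HasCompactSupport (L ∘ φ) := h2.comp_left (map_zero L)
    have e : ∀ x, ⟪A p (emb a (G x)), jac φ x⟫ = fderiv ℝ (L ∘ φ) x (‖G x‖ ^ (p - 2) • G x) := by
      intro x
      rw [fderiv_comp x L.differentiableAt (h1'.differentiable one_ne_zero x), L.fderiv]
      unfold A
      rw [← emb_smul, inner_emb, norm_emb]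
      generalize ‖G x‖ ^ (p - 2) • G x = v
      conv_rhs => rw [← (EuclideanSpace.basisFun (Fin d) ℝ).sum_repr v]
      simp [jac, L]
    rw [setIntegral_eq_integral_of_forall_compl_eq_zero]
    · simp only [e]
      exact hph _ k1 k2
    · intro x hx
      have : jac φ x = 0 := by
        unfold jac
        rw [fderiv_of_notMem_tsupport ℝ fun hh => hx (h3' hh)]
        rfl
      rw [this, inner_zero_right]
  · rintro ⟨c, hc⟩
    obtain ⟨r, hr, hrΩ⟩ := Metric.isOpen_iff.1 hΩ 0 h0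
    exact no_decay hU hae hcone hVc hVne hβ0 hβ1 hVhom hVb hr ⟨c, hc 0 r hr hrΩ⟩

end Pool.Agent.H27Z.PH
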